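import Pool.Agent.N666.TM.Maj
import Pool.Agent.N666.VE.FCMain

set_option autoImplicit false
set_option linter.unusedSectionVars false

/-! # Integer parts of generalised polynomials are well distributed -/

namespace Pool.Agent.N666.TM

open Finset Filter Pool.Agent.Y722.HS Pool.Agent.N534.LF
open Pool.Agent.W147.PS (ev_pow)
open Pool.Agent.N666.VE (Equi cls val primes)

section
variable {ι : Type} [Fintype ι] [DecidableEq ι] [Nonempty ι]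

/-- the integer parts -/
noncomputable def fl (F : ι → Finset ℝ) (a : ι → ℝ → ℝ) (n : ℕ) (i : ι) : ℤ :=
  ⌊∑ t ∈ F i, a i t * (n : ℝ) ^ t⌋

theorem well_of_equi {r : ℕ} {s : ℕ → Finset ℕ} {x : ℕ → Fin r → ℝ} {δ : ℝ} (hδ : 0 < δ)
    (hE : Equi s x δ) (hs : ∃ N₀ : ℕ, ∀ N : ℕ, N₀ ≤ N → (N : ℝ) ^ (1 - δ / 2) ≤ (s N).card)
    (e : ι ≃ Fin r) : ∃ κ : ℝ, 0 < κ ∧ ∃ N₀ : ℕ, ∀ N : ℕ, N₀ ≤ N → ∀ H : ℕ, (H : ℝ) ≤ (N : ℝ) ^ κ →
      Well (s N) (fun n i => ⌊x n (e i)⌋) H := by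
  obtain ⟨N₁, h₁⟩ := hE
  obtain ⟨N₂, h₂⟩ := hs
  have hr : Fintype.card ι = r := by rw [Fintype.card_congr e, Fintype.card_fin]
  set κ : ℝ := δ / (4 * (r + 1)) with hκ
  have hκ0 : 0 < κ := by positivity
  have hκδ : (r + 1) * κ = δ / 4 := by rw [hκ]; field_simp
  have hr0 : (0 : ℝ) ≤ r := by positivity
  have hκδ' : κ ≤ δ / 4 := by nlinarith
  have hev : ∀ᶠ Z : ℝ in atTop, 1 ≤ Z ∧ 3 * Z ^ κ ≤ Z ^ δ ∧
      3 ^ (r + 1) * Z ^ (δ / 4) ≤ Z ^ (δ / 2) := by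
    filter_upwards [eventually_ge_atTop (1 : ℝ), ev_pow κ δ 3 (by linarith),
      ev_pow (δ / 4) (δ / 2) (3 ^ (r + 1)) (by linarith)] with Z h1 h2 h3
    exact ⟨h1, h2, h3⟩
  obtain ⟨Z₀, hZ₀⟩ := eventually_atTop.mp hev
  refine ⟨κ, hκ0, ⌈Z₀⌉₊ + N₁ + N₂ + 1, fun N hN H hH => ?_⟩
  have hNZ : Z₀ ≤ N := (Nat.le_ceil Z₀).trans (by exact_mod_cast (by omega : ⌈Z₀⌉₊ ≤ N))
  obtain ⟨hN1, h3κ, h3r⟩ := hZ₀ N hNZ
  have hN0 : (0 : ℝ) < N := by linarith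
  have hcard := h₂ N (by omega)
  have hcpos : (0 : ℝ) < (s N).card := lt_of_lt_of_le (by positivity) hcard
  refine ⟨by exact_mod_cast hcpos, fun q hq1 hq ρ => ?_⟩
  have h2H : 2 * (H : ℝ) + 1 ≤ 3 * (N : ℝ) ^ κ := by
    have : (1 : ℝ) ≤ (N : ℝ) ^ κ := Real.one_le_rpow hN1 hκ0.le
    linarith
  have hqR : (q : ℝ) ≤ 2 * (H : ℝ) + 1 := by exact_mod_cast hq
  have hqδ : (q : ℝ) ≤ (N : ℝ) ^ δ := by linarith
  have hq0 : (0 : ℝ) < q := by exact_mod_cast hq1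
  have : NeZero q := ⟨by omega⟩
  have h4 := h₁ N (by omega) q hq1 hqδ (fun j => ((ρ (e.symm j)).val : ℤ))
  have ecls : cls (s N) x q (fun j => ((ρ (e.symm j)).val : ℤ)) =
      {n ∈ s N | red q (fun i => ⌊x n (e i)⌋) = ρ} := by
    ext n
    unfold cls
    simp only [Finset.mem_filter, and_congr_right_iff]
    intro _
    have key : ∀ j, ((q : ℤ) ∣ ⌊x n j⌋ - ((ρ (e.symm j)).val : ℤ)) ↔
        ((⌊x n j⌋ : ℤ) : ZMod q) = ρ (e.symm j) := by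
      intro j
      have hc : (((ρ (e.symm j)).val : ℤ) : ZMod q) = ρ (e.symm j) := by
        rw [Int.cast_natCast, ZMod.natCast_zmod_val]
      rw [← ZMod.intCast_eq_intCast_iff_dvd_sub, hc]
      exact eq_comm
    constructor
    · intro h
      funext i
      have := (key (e i)).mp (h (e i))
      simpa [red] using this
    · intro h j
      rw [key]
      have := congrFun h (e.symm j)
      simpa [red] using this
  rw [ecls] at h4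
  rw [hr]
  have h5 : |((#{n ∈ s N | red q (fun i => ⌊x n (e i)⌋) = ρ} : ℕ) : ℝ) / (s N).card -
      1 / (q : ℝ) ^ r| ≤ (N : ℝ) ^ (1 - δ) / (s N).card := by
    have e1 : ((#{n ∈ s N | red q (fun i => ⌊x n (e i)⌋) = ρ} : ℕ) : ℝ) / (s N).card -
        1 / (q : ℝ) ^ r = (((#{n ∈ s N | red q (fun i => ⌊x n (e i)⌋) = ρ} : ℕ) : ℝ) -
          (s N).card / (q : ℝ) ^ r) / (s N).card := by
      field_simp
    rw [e1, abs_div, abs_of_pos hcpos]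
    gcongr
  refine h5.trans ?_
  have h6 : (N : ℝ) ^ (1 - δ) / (s N).card ≤ 1 / (N : ℝ) ^ (δ / 2) := by
    rw [div_le_div_iff₀ hcpos (by positivity), one_mul, ← Real.rpow_add hN0]
    have : 1 - δ + δ / 2 = 1 - δ / 2 := by ring
    rw [this]
    exact hcard
  refine h6.trans ?_
  have h7 : (2 * (H : ℝ) + 1) * (q : ℝ) ^ r ≤ (N : ℝ) ^ (δ / 2) := by
    calc (2 * (H : ℝ) + 1) * (q : ℝ) ^ r ≤ (3 * (N : ℝ) ^ κ) * (3 * (N : ℝ) ^ κ) ^ r := by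
          gcongr
          linarith
      _ = 3 ^ (r + 1) * (N : ℝ) ^ ((r + 1) * κ) := by
          rw [← pow_succ', mul_pow, ← Real.rpow_natCast ((N : ℝ) ^ κ), ← Real.rpow_mul hN0.le]
          push_cast
          ring_nf
      _ ≤ _ := by rw [hκδ]; exact h3r
  rw [one_div_mul_one_div]
  exact one_div_le_one_div_of_le (by positivity) h7

/-- the majorant along a thin sequence -/
theorem thin_majorant {A β : ℝ} {Nf B : ∀ p : ℕ, (ι → ZMod p) → ℝ}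
    (hF : Pool.Agent.Y722.LS.Fam A Nf B) (hβ : 0 ≤ β) {s : ℕ → Finset ℕ} {x : ℕ → ι → ℤ} {κ : ℝ}
    (hκ : 0 < κ) (hw : ∃ N₀ : ℕ, ∀ N : ℕ, N₀ ≤ N → ∀ H : ℕ, (H : ℝ) ≤ (N : ℝ) ^ κ → Well (s N) x H) :
    ∃ C : ℝ, 0 < C ∧ ∃ N₀ : ℕ, ∀ N : ℕ, N₀ ≤ N → ∀ T : ℝ, 0 ≤ T → ∃ M : (ι → ℤ) → ℝ,
      (∀ c, 0 ≤ M c) ∧ ∑ n ∈ s N, M (x n) ≤ C * (1 + T) * (s N).card ∧
      ∀ (c : ι → ℤ) (lam : ℕ → ℂ → ℂ), Loc β Nf B c lam → ∀ u : ℂ, 1 / Real.log N ≤ u.re →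
        u.re ≤ 1 → |u.im| ≤ T → ‖∑' p : Nat.Primes, lam p u‖ ^ 2 ≤ M c := by
  obtain ⟨N₁, hN₁⟩ := hw
  obtain ⟨C, hC, h⟩ := majorant hF hβ (Λ := 4 / κ) (by positivity)
  refine ⟨C, hC, N₁ + 3, fun N hN T hT => ?_⟩
  have hN3 : (3 : ℝ) ≤ N := by exact_mod_cast (by omega : 3 ≤ N)
  have hN0 : (0 : ℝ) < N := by linarith
  have hlogN : 0 < Real.log N := Real.log_pos (by linarith)
  set y : ℕ := ⌊(N : ℝ) ^ (κ / 4)⌋₊ with hy
  have hy1 : 1 ≤ y := by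
    rw [hy, Nat.one_le_floor_iff]
    exact Real.one_le_rpow (by linarith) (by positivity)
  have hyH : ((y ^ 4 : ℕ) : ℝ) ≤ (N : ℝ) ^ κ := by
    push_cast
    have h1 : (y : ℝ) ≤ (N : ℝ) ^ (κ / 4) := Nat.floor_le (by positivity)
    calc (y : ℝ) ^ 4 ≤ ((N : ℝ) ^ (κ / 4)) ^ 4 := by gcongr
      _ = (N : ℝ) ^ κ := by
          rw [← Real.rpow_natCast, ← Real.rpow_mul hN0.le]
          norm_num
  have hws := hN₁ N (by omega) (y ^ 4) hyH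
  obtain ⟨M, hM0, hM1, hM2⟩ := h (s N) x (y ^ 4) y hws hy1 le_rfl T hT
  have hcpos : (0 : ℝ) < (s N).card := by exact_mod_cast hws.pos
  refine ⟨M, hM0, ?_, fun c lam hl u hu1 hu2 hu3 => ?_⟩
  · unfold SA at hM1
    rw [div_le_iff₀ hcpos] at hM1
    exact hM1
  · have hu0 : 0 < u.re := lt_of_lt_of_le (by positivity) hu1
    refine hM2 c lam hl u hu0 ?_ hu2 hu3
    have h1 : (κ / 4) * Real.log N ≤ Real.log (y + 1) := by
      rw [← Real.log_rpow hN0]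
      apply Real.log_le_log (by positivity)
      exact (Nat.lt_floor_add_one _).le
    rw [div_le_iff₀ hlogN] at hu1
    calc (1 : ℝ) ≤ u.re * Real.log N := hu1
      _ = 4 / κ * (u.re * ((κ / 4) * Real.log N)) := by field_simp
      _ ≤ _ := by gcongr

/-- integers and primes -/
theorem fl_well {F : ι → Finset ℝ} {a : ι → ℝ → ℝ} {c : ι → ℝ}
    (h : ∀ i, c i ∈ F i ∧ (∀ t ∈ F i, t ≤ c i) ∧ 0 < c i ∧ (∀ m : ℕ, c i ≠ m) ∧ 0 < a i (c i))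
    (hc : Function.Injective c) :
    (∃ κ : ℝ, 0 < κ ∧ ∃ N₀ : ℕ, ∀ N : ℕ, N₀ ≤ N → ∀ H : ℕ, (H : ℝ) ≤ (N : ℝ) ^ κ →
      Well (Ioc N (2 * N)) (fl F a) H) ∧
    (∃ κ : ℝ, 0 < κ ∧ ∃ N₀ : ℕ, ∀ N : ℕ, N₀ ≤ N → ∀ H : ℕ, (H : ℝ) ≤ (N : ℝ) ^ κ →
      Well (primes N) (fl F a) H) := by
  set e := Fintype.equivFin ι with he
  have hr : 1 ≤ Fintype.card ι := Fintype.card_pos
  have H : Pool.Agent.Y961.JR.Fam (fun j => F (e.symm j)) (fun j => a (e.symm j))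
      (fun j => c (e.symm j)) :=
    ⟨fun j => (h _).1, fun j => (h _).2.1, fun j => (h _).2.2.2.2, fun j => (h _).2.2.1,
      fun j => (h _).2.2.2.1, hc.comp e.symm.injective⟩
  have hfl : (fun n i => ⌊val (fun j => F (e.symm j)) (fun j => a (e.symm j)) n (e i)⌋) = fl F a := by
    funext n i
    unfold Pool.Agent.N666.VE.val fl
    simp
  obtain ⟨δ₁, hδ₁, -, h₁⟩ := Pool.Agent.N666.VE.equi_ints hr H
  obtain ⟨δ₂, hδ₂, -, h₂⟩ := Pool.Agent.N666.VE.equi_primes hr H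
  refine ⟨?_, ?_⟩
  · rw [← hfl]
    refine well_of_equi hδ₁ h₁ ⟨1, fun N hN => ?_⟩ e
    have hN1 : (1 : ℝ) ≤ N := by exact_mod_cast hN
    rw [Nat.card_Ioc, show 2 * N - N = N by omega]
    calc (N : ℝ) ^ (1 - δ₁ / 2) ≤ (N : ℝ) ^ (1 : ℝ) :=
          Real.rpow_le_rpow_of_exponent_le hN1 (by linarith)
      _ = N := Real.rpow_one _
  · rw [← hfl]
    obtain ⟨N₀, hN₀⟩ := eventually_atTop.mp (Pool.Agent.N666.VE.card_primes' (2 * δ₂) (by positivity))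
    refine well_of_equi hδ₂ h₂ ⟨N₀, fun N hN => ?_⟩ e
    have := hN₀ N hN
    rw [show 2 * δ₂ / 4 = δ₂ / 2 by ring] at this
    exact this

end

end Pool.Agent.N666.TM
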