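import Pool.Agent.N666.TM.Mean

set_option autoImplicit false
set_option linter.unusedSectionVars false

/-! # Turan's sieve for a well distributed family of integer vectors -/

namespace Pool.Agent.N666.TM

open Finset Pool.Agent.Y722.HS Pool.Agent.Y722.LS

section
variable {ι : Type} [Fintype ι] [DecidableEq ι] {s : Finset ℕ} {x : ℕ → ι → ℤ} {H : ℕ}

open Classical in
/-- the indicator function -/
noncomputable def ind {q : ℕ} (Ω : Set (ι → ZMod q)) (ρ : ι → ZMod q) : ℝ := if ρ ∈ Ω then 1 else 0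

/-- the density -/
noncomputable def dens {q : ℕ} (Ω : Set (ι → ZMod q)) : ℝ := (Ω.ncard : ℝ) / (q : ℝ) ^ Fintype.card ι

theorem dens_nonneg {q : ℕ} (Ω : Set (ι → ZMod q)) : 0 ≤ dens Ω := by unfold dens; positivity

theorem ind_nonneg {q : ℕ} (Ω : Set (ι → ZMod q)) (ρ : ι → ZMod q) : 0 ≤ ind Ω ρ := by
  unfold ind; split_ifs <;> norm_num

theorem EM_ind (q : ℕ) [NeZero q] (Ω : Set (ι → ZMod q)) : EM q (ind Ω) = dens Ω := by
  classical
  unfold EM dens ind
  rw [Finset.sum_boole, Set.ncard_eq_toFinset_card']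
  congr 3
  ext ρ
  simp

theorem EM_abs_ind (q : ℕ) [NeZero q] (Ω : Set (ι → ZMod q)) : EM q (fun c => |ind Ω c|) = dens Ω := by
  rw [← EM_ind]
  congr 1
  funext c
  exact abs_of_nonneg (ind_nonneg Ω c)

theorem SA_ind (hw : Well s x H) (q : ℕ) (hq0 : 1 ≤ q) (hq : q ≤ 2 * H + 1) (Ω : Set (ι → ZMod q)) :
    |SA s x (fun c => ind Ω (red q c)) - dens Ω| ≤ 1 / (2 * H + 1) * dens Ω := by
  have : NeZero q := ⟨by omega⟩
  have h := SA_near hw q hq (ind Ω)
  rw [EM_ind, EM_abs_ind] at h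
  exact h

theorem SA_ind_two (hw : Well s x H) (p q : ℕ) (hp0 : 1 ≤ p) (hq0 : 1 ≤ q) (hpq : p.Coprime q)
    (hH : p * q ≤ 2 * H + 1) (Ω : Set (ι → ZMod p)) (Ω' : Set (ι → ZMod q)) :
    |SA s x (fun c => ind Ω (red p c) * ind Ω' (red q c)) - dens Ω * dens Ω'| ≤
      1 / (2 * H + 1) * (dens Ω * dens Ω') := by
  have : NeZero p := ⟨by omega⟩
  have : NeZero q := ⟨by omega⟩
  have h := SA_two hw p q hpq hH (ind Ω) (ind Ω')
  rw [EM_ind, EM_ind, EM_abs_ind, EM_abs_ind] at h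
  exact h

open Classical in
theorem turan (hw : Well s x H) (P : Finset ℕ) (Q : ℕ → ℕ) (hQ : ∀ p ∈ P, 1 ≤ Q p)
    (hc : ∀ p ∈ P, ∀ p' ∈ P, p ≠ p' → (Q p).Coprime (Q p'))
    (hH : ∀ p ∈ P, ∀ p' ∈ P, Q p * Q p' ≤ 2 * H + 1) (Ω : ∀ p, Set (ι → ZMod (Q p))) (μ : ℝ)
    (hμ : μ = ∑ p ∈ P, dens (Ω p)) (hμ0 : 0 < μ) :
    ((s.filter fun n => ∀ p ∈ P, red (Q p) (x n) ∉ Ω p).card : ℝ) ≤
      (2 / μ + 4 / (2 * H + 1)) * s.card := by
  set η : ℝ := 1 / (2 * H + 1) with hη
  have hη0 : 0 ≤ η := by positivity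
  have hη1 : η ≤ 1 := by
    rw [hη, div_le_one (by positivity)]
    have : (0 : ℝ) ≤ H := by positivity
    linarith
  have hs : (0 : ℝ) < s.card := by exact_mod_cast hw.pos
  have hQH : ∀ p ∈ P, Q p ≤ 2 * H + 1 := fun p hp =>
    (Nat.le_mul_of_pos_left (Q p) (hQ p hp)).trans (hH p hp p hp)
  set X : (ι → ℤ) → ℝ := fun c => ∑ p ∈ P, ind (Ω p) (red (Q p) c) with hX
  have hSX : (1 - η) * μ ≤ SA s x X := by
    rw [hX, SA_sum, hμ, Finset.mul_sum]
    refine Finset.sum_le_sum fun p hp => ?_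
    have := (abs_le.mp (SA_ind hw (Q p) (hQ p hp) (hQH p hp) (Ω p))).1
    linarith
  have hSXX : SA s x (fun c => X c ^ 2) ≤ (1 + η) * μ + (1 + η) * μ ^ 2 := by
    have e1 : (fun c => X c ^ 2) = fun c => ∑ p ∈ P, ∑ p' ∈ P,
        ind (Ω p) (red (Q p) c) * ind (Ω p') (red (Q p') c) := by
      funext c
      rw [hX, pow_two, Finset.sum_mul_sum]
    rw [e1, SA_sum]
    simp only [SA_sum]
    have h2 : ∀ p ∈ P, ∀ p' ∈ P, SA s x (fun c => ind (Ω p) (red (Q p) c) *
        ind (Ω p') (red (Q p') c)) ≤ (if p' = p then (1 + η) * dens (Ω p) else 0) +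
          (1 + η) * (dens (Ω p) * dens (Ω p')) := by
      intro p hp p' hp'
      have hd := dens_nonneg (Ω p)
      have hd' := dens_nonneg (Ω p')
      by_cases h : p' = p
      · subst h
        rw [if_pos rfl]
        have e2 : (fun c => ind (Ω p') (red (Q p') c) * ind (Ω p') (red (Q p') c)) =
            fun c : ι → ℤ => ind (Ω p') (red (Q p') c) := by
          funext c
          unfold ind
          split_ifs <;> norm_num
        rw [e2]
        have h3 := (abs_le.mp (SA_ind hw (Q p') (hQ p' hp') (hQH p' hp') (Ω p'))).2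
        have h4 : 0 ≤ (1 + η) * (dens (Ω p') * dens (Ω p')) := by positivity
        linarith
      · rw [if_neg h, zero_add]
        have h3 := (abs_le.mp (SA_ind_two hw (Q p) (Q p') (hQ p hp) (hQ p' hp')
          (hc p hp p' hp' fun h' => h h'.symm) (hH p hp p' hp') (Ω p) (Ω p'))).2
        linarith
    refine (Finset.sum_le_sum fun p hp => Finset.sum_le_sum fun p' hp' => h2 p hp p' hp').trans ?_
    simp only [Finset.sum_add_distrib]
    have t1 : ∑ p ∈ P, ∑ p' ∈ P, (if p' = p then (1 + η) * dens (Ω p) else 0) = (1 + η) * μ := by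
      rw [hμ, Finset.mul_sum]
      refine Finset.sum_congr rfl fun p hp => ?_
      rw [Finset.sum_ite_eq' P p, if_pos hp]
    have t2 : ∑ p ∈ P, ∑ p' ∈ P, (1 + η) * (dens (Ω p) * dens (Ω p')) = (1 + η) * μ ^ 2 := by
      simp only [← Finset.mul_sum]
      rw [← Finset.sum_mul, ← hμ]
      ring
    rw [t1, t2]
  have hvar : SA s x (fun c => (X c - μ) ^ 2) ≤ (1 + η) * μ + 3 * η * μ ^ 2 := by
    have e : (fun c => (X c - μ) ^ 2) = fun c => X c ^ 2 + ((-(2 * μ)) * X c + μ ^ 2) := by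
      funext c; ring
    rw [e, SA_add, SA_add, SA_mulc, SA_const hw]
    have h1 : 2 * μ * ((1 - η) * μ) ≤ 2 * μ * SA s x X := by gcongr
    nlinarith
  have hcount : ((s.filter fun n => ∀ p ∈ P, red (Q p) (x n) ∉ Ω p).card : ℝ) * μ ^ 2 ≤
      SA s x (fun c => (X c - μ) ^ 2) * s.card := by
    have e : SA s x (fun c => (X c - μ) ^ 2) * s.card = ∑ n ∈ s, (X (x n) - μ) ^ 2 := by
      unfold SA
      field_simp
    rw [e]
    calc _ = ∑ n ∈ s.filter (fun n => ∀ p ∈ P, red (Q p) (x n) ∉ Ω p), (X (x n) - μ) ^ 2 := by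
          rw [← nsmul_eq_mul, ← Finset.sum_const]
          refine Finset.sum_congr rfl fun n hn => ?_
          have h0 : X (x n) = 0 := by
            rw [hX]
            refine Finset.sum_eq_zero fun p hp => ?_
            unfold ind
            rw [if_neg ((Finset.mem_filter.mp hn).2 p hp)]
          rw [h0]
          ring
      _ ≤ _ := Finset.sum_le_sum_of_subset_of_nonneg (Finset.filter_subset _ _)
          fun n _ _ => sq_nonneg _
  have h5 : ((s.filter fun n => ∀ p ∈ P, red (Q p) (x n) ∉ Ω p).card : ℝ) * μ ^ 2 ≤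
      ((2 / μ + 4 * η) * s.card) * μ ^ 2 := by
    calc _ ≤ ((1 + η) * μ + 3 * η * μ ^ 2) * s.card := hcount.trans (by gcongr)
      _ ≤ (2 * μ + 4 * η * μ ^ 2) * s.card := by
          gcongr
          · linarith
          · linarith
      _ = _ := by field_simp
  have h6 := le_of_mul_le_mul_right h5 (by positivity)
  rw [hη] at h6
  rw [show (4 : ℝ) / (2 * H + 1) = 4 * (1 / (2 * H + 1)) by ring]
  exact h6

end

end Pool.Agent.N666.TM
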