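import Pool.Agent.N666.TM.Turan
import Pool.Agent.N666.TM.Thin

set_option autoImplicit false
set_option linter.unusedSectionVars false

/-!
# The sieve for a property with a local criterion

`x` is a well distributed sequence of integer vectors and `Ω p` is, for the primes `p > T₀`, a set of
residues modulo `Q p` of density at least `w p`, where the sum of `w p` diverges: almost all members of
the sequence are in `Ω p` for some prime `p` between `T₀` and a bound which depends on the proportion only.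
-/

namespace Pool.Agent.N666.TM

open Finset Filter Pool.Agent.Y722.HS Pool.Agent.Y722.LS

section
variable {ι : Type} [Fintype ι] [DecidableEq ι]

open Classical in
theorem crit {S : ℕ → Finset ℕ} {x : ℕ → ι → ℤ} {κ : ℝ} (hκ : 0 < κ)
    (hw : ∃ N₀ : ℕ, ∀ N : ℕ, N₀ ≤ N → ∀ H : ℕ, (H : ℝ) ≤ (N : ℝ) ^ κ → Well (S N) x H)
    (Q : ℕ → ℕ) (hQ1 : ∀ p, p.Prime → 1 ≤ Q p)
    (hQc : ∀ p p', p.Prime → p'.Prime → p ≠ p' → (Q p).Coprime (Q p'))
    (Ω : ∀ p : ℕ, Set (ι → ZMod (Q p))) (T₀ : ℕ) (w : ℕ → ℝ) (hw0 : ∀ p, 0 ≤ w p)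
    (hdiv : ¬ Summable (fun p : ℕ => if p.Prime then w p else 0))
    (hΩ : ∀ p, p.Prime → T₀ < p → w p ≤ dens (Ω p)) (ε : ℝ) (hε : 0 < ε) :
    ∃ T' N₀ : ℕ, ∀ N : ℕ, N₀ ≤ N →
      (((S N).filter fun n => ∀ p, p.Prime → T₀ < p → p ≤ T' → red (Q p) (x n) ∉ Ω p).card : ℝ) ≤
        ε * (S N).card := by
  obtain ⟨N₁, hN₁⟩ := hw
  obtain ⟨y, hy⟩ : ∃ y : ℕ, 4 / ε ≤ ∑ p ∈ (Finset.range y).filter Nat.Prime,
      (if T₀ < p then w p else 0) := by
    have hns : ¬ Summable (fun p : ℕ => if p.Prime then (if T₀ < p then w p else 0) else 0) := by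
      intro hsum
      apply hdiv
      refine (summable_congr_cofinite ?_).mp hsum
      rw [Filter.eventuallyEq_iff_exists_mem]
      refine ⟨{p | T₀ < p}, ?_, ?_⟩
      · rw [Nat.cofinite_eq_atTop]
        exact Ioi_mem_atTop T₀
      · intro p hp
        have hp' : T₀ < p := hp
        simp [hp']
    have hnn : ∀ p : ℕ, 0 ≤ (if p.Prime then (if T₀ < p then w p else 0) else 0) := by
      intro p
      have := hw0 p
      split_ifs <;> first | exact this | exact le_rfl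
    have ht := (not_summable_iff_tendsto_nat_atTop_of_nonneg hnn).mp hns
    obtain ⟨y, hy⟩ := (ht.eventually_ge_atTop (4 / ε)).exists
    refine ⟨y, ?_⟩
    rw [Finset.sum_filter]
    exact hy
  set P : Finset ℕ := ((Finset.range y).filter Nat.Prime).filter (fun p => T₀ < p) with hP
  have hPsum : 4 / ε ≤ ∑ p ∈ P, w p := by
    rw [hP, Finset.sum_filter]
    exact hy
  have hPm : ∀ p ∈ P, p < y ∧ p.Prime ∧ T₀ < p := by
    intro p hp
    simp only [hP, Finset.mem_filter, Finset.mem_range] at hp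
    exact ⟨hp.1.1, hp.1.2, hp.2⟩
  set H : ℕ := (∑ p ∈ P, Q p) * (∑ p ∈ P, Q p) + ⌈8 / ε⌉₊ with hH
  have hev : ∀ᶠ N : ℕ in atTop, (H : ℝ) ≤ (N : ℝ) ^ κ := by
    have h1 : Tendsto (fun N : ℕ => (N : ℝ) ^ κ) atTop atTop :=
      (tendsto_rpow_atTop hκ).comp tendsto_natCast_atTop_atTop
    exact h1.eventually_ge_atTop _
  obtain ⟨N₂, hN₂⟩ := eventually_atTop.mp hev
  refine ⟨y, max N₁ N₂, fun N hN => ?_⟩
  have hws := hN₁ N ((le_max_left _ _).trans hN) H (hN₂ N ((le_max_right _ _).trans hN))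
  have hμ : 4 / ε ≤ ∑ p ∈ P, dens (Ω p) :=
    hPsum.trans (Finset.sum_le_sum fun p hp => hΩ p (hPm p hp).2.1 (hPm p hp).2.2)
  have hμ0 : 0 < ∑ p ∈ P, dens (Ω p) := lt_of_lt_of_le (by positivity) hμ
  have h1 := turan hws P Q (fun p hp => hQ1 p (hPm p hp).2.1)
    (fun p hp p' hp' hne => hQc p p' (hPm p hp).2.1 (hPm p' hp').2.1 hne)
    (fun p hp p' hp' => by
      have a1 : Q p ≤ ∑ p ∈ P, Q p := Finset.single_le_sum (fun _ _ => Nat.zero_le _) hp
      have a2 : Q p' ≤ ∑ p ∈ P, Q p := Finset.single_le_sum (fun _ _ => Nat.zero_le _) hp'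
      have a3 := Nat.mul_le_mul a1 a2
      omega) Ω _ rfl hμ0
  have h2 : 2 / (∑ p ∈ P, dens (Ω p)) ≤ ε / 2 := by
    rw [div_le_iff₀ hμ0]
    have : 4 / ε * (ε / 2) = 2 := by field_simp; norm_num
    nlinarith
  have h3 : 4 / (2 * (H : ℝ) + 1) ≤ ε / 2 := by
    have a1 : 8 / ε ≤ H := by
      have b1 := Nat.le_ceil (8 / ε)
      have b2 : ((⌈8 / ε⌉₊ : ℕ) : ℝ) ≤ (H : ℝ) := by
        rw [hH]
        exact_mod_cast Nat.le_add_left _ _
      exact b1.trans b2
    rw [div_le_iff₀ (by positivity)]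
    have : 8 / ε * (ε / 2) = 4 := by field_simp; norm_num
    nlinarith
  have h4 : (((S N).filter fun n => ∀ p, p.Prime → T₀ < p → p ≤ y →
      red (Q p) (x n) ∉ Ω p).card : ℝ) ≤
      (((S N).filter fun n => ∀ p ∈ P, red (Q p) (x n) ∉ Ω p).card : ℝ) := by
    refine Nat.cast_le.2 (Finset.card_le_card fun n hn => ?_)
    rw [Finset.mem_filter] at hn ⊢
    exact ⟨hn.1, fun p hp => hn.2 p (hPm p hp).2.1 (hPm p hp).2.2 (hPm p hp).1.le⟩
  refine (h4.trans h1).trans ?_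
  have : (0 : ℝ) ≤ (S N).card := Nat.cast_nonneg _
  refine mul_le_mul_of_nonneg_right ?_ this
  linarith

/-- A set of residues of small density contains few members of the sequence. -/
theorem rare {S : ℕ → Finset ℕ} {x : ℕ → ι → ℤ} {κ : ℝ} (hκ : 0 < κ)
    (hw : ∃ N₀ : ℕ, ∀ N : ℕ, N₀ ≤ N → ∀ H : ℕ, (H : ℝ) ≤ (N : ℝ) ^ κ → Well (S N) x H)
    (q : ℕ) (hq : 1 ≤ q) (Ω : Set (ι → ZMod q)) (ε : ℝ) (hΩ : dens Ω ≤ ε) [DecidablePred fun n => red q (x n) ∈ Ω] :
    ∃ N₀ : ℕ, ∀ N : ℕ, N₀ ≤ N →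
      (((S N).filter fun n => red q (x n) ∈ Ω).card : ℝ) ≤ 2 * ε * (S N).card := by
  classical
  obtain ⟨N₁, hN₁⟩ := hw
  have hev : ∀ᶠ N : ℕ in atTop, (q : ℝ) ≤ (N : ℝ) ^ κ := by
    have h1 : Tendsto (fun N : ℕ => (N : ℝ) ^ κ) atTop atTop :=
      (tendsto_rpow_atTop hκ).comp tendsto_natCast_atTop_atTop
    exact h1.eventually_ge_atTop _
  obtain ⟨N₂, hN₂⟩ := eventually_atTop.mp hev
  refine ⟨max N₁ N₂, fun N hN => ?_⟩
  have hws := hN₁ N ((le_max_left _ _).trans hN) q (hN₂ N ((le_max_right _ _).trans hN))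
  have h1 := SA_ind hws q hq (by omega) Ω
  have hd0 := dens_nonneg Ω
  have hη : (1 : ℝ) / (2 * q + 1) ≤ 1 := by
    rw [div_le_one (by positivity)]
    have : (0 : ℝ) ≤ q := by positivity
    linarith
  have h2 : SA (S N) x (fun c => ind Ω (red q c)) ≤ 2 * ε := by
    have := (abs_le.1 h1).2
    nlinarith [mul_le_mul_of_nonneg_right hη hd0]
  have hs : (0 : ℝ) < (S N).card := by exact_mod_cast hws.pos
  have h3 : SA (S N) x (fun c => ind Ω (red q c)) =
      (((S N).filter fun n => red q (x n) ∈ Ω).card : ℝ) / (S N).card := by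
    unfold SA ind
    rw [Finset.natCast_card_filter]
    congr 1
    refine Finset.sum_congr rfl fun n _ => ?_
    by_cases h : red q (x n) ∈ Ω <;> simp [h]
  rw [h3, div_le_iff₀ hs] at h2
  exact h2

end

end Pool.Agent.N666.TM
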