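import Pool.Agent.N666.TM.Exact

set_option autoImplicit false
set_option linter.unusedSectionVars false

/-! # One null set for infinitely many generalised polynomials -/

namespace Pool.Agent.N666.TM

open Finset Filter
open Pool.Agent.N666.VE (primes)

/-- density zero relative to the sets `S N ⊆ (N, 2 N]` -/
def NullIn (S : ℕ → Finset ℕ) (E : Set ℕ) : Prop :=
  ∀ ε : ℝ, 0 < ε → ∃ N₀ : ℕ, ∀ N : ℕ, N₀ ≤ N →
    ({t : ℕ | t ∈ S N ∧ t ∈ E}.ncard : ℝ) ≤ ε * (S N).card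

theorem diag {E : ℕ → Set ℕ} (hmono : Monotone E) {S₁ S₂ : ℕ → Finset ℕ}
    (hS₁ : ∀ N, S₁ N ⊆ Ioc N (2 * N)) (hS₂ : ∀ N, S₂ N ⊆ Ioc N (2 * N))
    (h₁ : ∀ k, NullIn S₁ (E k)) (h₂ : ∀ k, NullIn S₂ (E k)) :
    ∃ E' : Set ℕ, NullIn S₁ E' ∧ NullIn S₂ E' ∧ ∀ k, (E k \ E').Finite := by
  classical
  have hg : ∀ k : ℕ, ∃ g : ℕ, ∀ N : ℕ, g ≤ N →
      ({t : ℕ | t ∈ S₁ N ∧ t ∈ E k}.ncard : ℝ) ≤ 1 / (k + 1) * (S₁ N).card ∧
      ({t : ℕ | t ∈ S₂ N ∧ t ∈ E k}.ncard : ℝ) ≤ 1 / (k + 1) * (S₂ N).card := by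
    intro k
    obtain ⟨N₁, a1⟩ := h₁ k (1 / (k + 1)) (by positivity)
    obtain ⟨N₂, a2⟩ := h₂ k (1 / (k + 1)) (by positivity)
    exact ⟨max N₁ N₂, fun N hN => ⟨a1 N ((le_max_left _ _).trans hN), a2 N ((le_max_right _ _).trans hN)⟩⟩
  choose g hg using hg
  set κ : ℕ → ℕ := fun t => Nat.findGreatest (fun k => 2 * g k ≤ t) t with hκ
  have hκmono : Monotone κ := by
    intro t t' htt
    exact Nat.findGreatest_mono (fun k hk => le_trans hk htt) htt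
  have hκge : ∀ k t, k ≤ t → 2 * g k ≤ t → k ≤ κ t := fun k t h1 h2 => Nat.le_findGreatest h1 h2
  have hκsp : ∀ t, κ t ≠ 0 → 2 * g (κ t) ≤ t := by
    intro t h0
    exact Nat.findGreatest_of_ne_zero (P := fun k => 2 * g k ≤ t) (n := t) rfl h0
  refine ⟨{t | t ∈ E (κ t)}, ?_, ?_, ?_⟩
  · intro ε hε
    obtain ⟨k₀, hk₀⟩ := exists_nat_one_div_lt hε
    refine ⟨k₀ + 1 + g (k₀ + 1), fun N hN => ?_⟩
    have hk : k₀ + 1 ≤ κ (2 * N) := hκge _ _ (by omega) (by omega)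
    have hgN : g (κ (2 * N)) ≤ N := by
      have := hκsp (2 * N) (by omega)
      omega
    have hsub : {t : ℕ | t ∈ S₁ N ∧ t ∈ {t | t ∈ E (κ t)}} ⊆ {t : ℕ | t ∈ S₁ N ∧ t ∈ E (κ (2 * N))} := by
      rintro t ⟨ht, ht'⟩
      exact ⟨ht, hmono (hκmono (Finset.mem_Ioc.mp (hS₁ N ht)).2) ht'⟩
    have hfin : {t : ℕ | t ∈ S₁ N ∧ t ∈ E (κ (2 * N))}.Finite :=
      (S₁ N).finite_toSet.subset fun t ht => ht.1
    have h3 := (hg (κ (2 * N)) N hgN).1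
    have h4 : (({t : ℕ | t ∈ S₁ N ∧ t ∈ {t | t ∈ E (κ t)}}.ncard : ℕ) : ℝ) ≤
        ({t : ℕ | t ∈ S₁ N ∧ t ∈ E (κ (2 * N))}.ncard : ℕ) := by
      exact_mod_cast Set.ncard_le_ncard hsub hfin
    refine h4.trans (h3.trans ?_)
    have h5 : 1 / ((κ (2 * N) : ℕ) + 1 : ℝ) ≤ ε := by
      refine le_trans ?_ hk₀.le
      apply one_div_le_one_div_of_le (by positivity)
      have : ((k₀ + 1 : ℕ) : ℝ) ≤ (κ (2 * N) : ℕ) := by exact_mod_cast hk
      push_cast at this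
      linarith
    gcongr
  · intro ε hε
    obtain ⟨k₀, hk₀⟩ := exists_nat_one_div_lt hε
    refine ⟨k₀ + 1 + g (k₀ + 1), fun N hN => ?_⟩
    have hk : k₀ + 1 ≤ κ (2 * N) := hκge _ _ (by omega) (by omega)
    have hgN : g (κ (2 * N)) ≤ N := by
      have := hκsp (2 * N) (by omega)
      omega
    have hsub : {t : ℕ | t ∈ S₂ N ∧ t ∈ {t | t ∈ E (κ t)}} ⊆ {t : ℕ | t ∈ S₂ N ∧ t ∈ E (κ (2 * N))} := by
      rintro t ⟨ht, ht'⟩
      exact ⟨ht, hmono (hκmono (Finset.mem_Ioc.mp (hS₂ N ht)).2) ht'⟩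
    have hfin : {t : ℕ | t ∈ S₂ N ∧ t ∈ E (κ (2 * N))}.Finite :=
      (S₂ N).finite_toSet.subset fun t ht => ht.1
    have h3 := (hg (κ (2 * N)) N hgN).2
    have h4 : (({t : ℕ | t ∈ S₂ N ∧ t ∈ {t | t ∈ E (κ t)}}.ncard : ℕ) : ℝ) ≤
        ({t : ℕ | t ∈ S₂ N ∧ t ∈ E (κ (2 * N))}.ncard : ℕ) := by
      exact_mod_cast Set.ncard_le_ncard hsub hfin
    refine h4.trans (h3.trans ?_)
    have h5 : 1 / ((κ (2 * N) : ℕ) + 1 : ℝ) ≤ ε := by
      refine le_trans ?_ hk₀.le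
      apply one_div_le_one_div_of_le (by positivity)
      have : ((k₀ + 1 : ℕ) : ℝ) ≤ (κ (2 * N) : ℕ) := by exact_mod_cast hk
      push_cast at this
      linarith
    gcongr
  · intro k
    refine (Set.finite_Iio (k + 2 * g k + 1)).subset ?_
    rintro t ⟨ht, ht'⟩
    simp only [Set.mem_Iio]
    by_contra hlt
    exact ht' (hmono (hκge k t (by omega) (by omega)) ht)

/-- the integer part of the value of a generalised polynomial -/
noncomputable def flo (F : ℕ → Finset ℝ) (a : ℕ → ℝ → ℝ) (l t : ℕ) : ℤ :=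
  ⌊∑ x ∈ F l, a l x * (t : ℝ) ^ x⌋

/-- the integers `t` such that for `l ≤ k` there is a prime above `k` which divides the integer part
of `P_l(t)` exactly, and does not divide the others -/
def GoodAt (F : ℕ → Finset ℝ) (a : ℕ → ℝ → ℝ) (k t : ℕ) : Prop :=
  ∀ l < k + 1, ∃ p : ℕ, p.Prime ∧ k < p ∧ (p : ℤ) ∣ flo F a l t ∧ ¬ (p : ℤ) ^ 2 ∣ flo F a l t ∧
    ∀ i < k + 1, i ≠ l → ¬ (p : ℤ) ∣ flo F a i t

theorem one_null_set {F : ℕ → Finset ℝ} {a : ℕ → ℝ → ℝ} {c : ℕ → ℝ}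
    (h : ∀ i, c i ∈ F i ∧ (∀ t ∈ F i, t ≤ c i) ∧ 0 < c i ∧ (∀ m : ℕ, c i ≠ m) ∧ 0 < a i (c i))
    (hc : Function.Injective c) :
    ∃ E : Set ℕ, NullIn (fun N => Ioc N (2 * N)) E ∧ NullIn primes E ∧
      ∀ k, {t : ℕ | t ∉ E ∧ ¬ GoodAt F a k t}.Finite := by
  classical
  have hmono : Monotone (fun k => {t : ℕ | ¬ GoodAt F a k t}) := by
    intro k k' hkk t ht hgood
    apply ht
    intro l hl
    obtain ⟨p, h1, h2, h3, h4, h5⟩ := hgood l (by omega)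
    exact ⟨p, h1, by omega, h3, h4, fun i hi => h5 i (by omega)⟩
  have hkey : ∀ k, NullIn (fun N => Ioc N (2 * N)) {t : ℕ | ¬ GoodAt F a k t} ∧
      NullIn primes {t : ℕ | ¬ GoodAt F a k t} := by
    intro k
    obtain ⟨⟨κ₁, hκ₁, g₁⟩, ⟨κ₂, hκ₂, g₂⟩⟩ := fl_well (ι := Fin (k + 1))
      (F := fun i => F i) (a := fun i => a i) (c := fun i => c i) (fun i => h i)
      (hc.comp Fin.val_injective)
    have hsub : ∀ S : Finset ℕ, {t : ℕ | t ∈ S ∧ ¬ GoodAt F a k t} ⊆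
        {n : ℕ | n ∈ S ∧ ¬ ∀ l : Fin (k + 1), ∃ p : ℕ, p.Prime ∧ k < p ∧
          Ex l p (fl (fun i : Fin (k + 1) => F i) (fun i => a i) n)} := by
      rintro S t ⟨ht, hg⟩
      refine ⟨ht, fun hall => hg ?_⟩
      intro l hl
      obtain ⟨p, h1, h2, h3, h4, h5⟩ := hall ⟨l, hl⟩
      refine ⟨p, h1, h2, h3, h4, fun i hi hne => h5 ⟨i, hi⟩ ?_⟩
      intro heq
      exact hne (congrArg Fin.val heq)
    constructor
    · intro ε hε
      obtain ⟨N₀, hN₀⟩ := ex_dens hκ₁ g₁ k ε hε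
      refine ⟨N₀, fun N hN => le_trans ?_ (hN₀ N hN)⟩
      exact_mod_cast Set.ncard_le_ncard (hsub _) ((Finset.finite_toSet _).subset fun t ht => ht.1)
    · intro ε hε
      obtain ⟨N₀, hN₀⟩ := ex_dens hκ₂ g₂ k ε hε
      refine ⟨N₀, fun N hN => le_trans ?_ (hN₀ N hN)⟩
      exact_mod_cast Set.ncard_le_ncard (hsub _) ((Finset.finite_toSet _).subset fun t ht => ht.1)
  obtain ⟨E, h1, h2, h3⟩ := diag hmono (fun N => Finset.Subset.refl _)
    (fun N => Finset.filter_subset _ _) (fun k => (hkey k).1) (fun k => (hkey k).2)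
  refine ⟨E, h1, h2, fun k => (h3 k).subset ?_⟩
  rintro t ⟨ht, ht'⟩
  exact ⟨ht', ht⟩

/-- the exponents of the primes -/
theorem fact_prod {L : ℕ} {m : Fin L → ℕ} (e : Fin L → ℕ) (l : Fin L) {p : ℕ} (hp : p.Prime)
    (h1 : p ∣ m l) (h2 : ¬ p ^ 2 ∣ m l) (h3 : ∀ i, i ≠ l → ¬ p ∣ m i) :
    (∏ i, m i ^ e i).factorization p = e l := by
  have hne : ∀ i, m i ≠ 0 := by
    intro i h0
    by_cases hi : i = l
    · subst hi; exact h2 (by rw [h0]; exact dvd_zero _)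
    · exact h3 i hi (by rw [h0]; exact dvd_zero _)
  rw [Nat.factorization_prod (fun i _ => pow_ne_zero _ (hne i))]
  simp only [Nat.factorization_pow, Finsupp.coe_finsetSum, Finset.sum_apply, Finsupp.coe_smul,
    Pi.smul_apply, smul_eq_mul]
  rw [Finset.sum_eq_single l]
  · have h4 : (m l).factorization p = 1 := by
      have h5 : 1 ≤ (m l).factorization p := (hp.dvd_iff_one_le_factorization (hne l)).mp h1
      have h6 : ¬ 2 ≤ (m l).factorization p := fun h => h2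
        ((hp.pow_dvd_iff_le_factorization (hne l)).mpr h)
      omega
    rw [h4, mul_one]
  · intro i _ hi
    rw [Nat.factorization_eq_zero_of_not_dvd (h3 i hi), mul_zero]
  · intro h
    exact absurd (Finset.mem_univ l) h

end Pool.Agent.N666.TM
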