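import Pool.Agent.Y722.LS.Abs

set_option autoImplicit false
set_option linter.unusedSectionVars false

/-! # Means over the members of a well distributed family of integer vectors -/

namespace Pool.Agent.N666.TM

open Finset Pool.Agent.Y722.HS Pool.Agent.Y722.LS

section
variable {ι : Type} [Fintype ι] [DecidableEq ι]

/-- The mean over the members of a finite family of vectors. -/
noncomputable def SA (s : Finset ℕ) (x : ℕ → ι → ℤ) (f : (ι → ℤ) → ℝ) : ℝ :=
  (∑ n ∈ s, f (x n)) / s.card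

/-- The vectors are well distributed in the residue classes modulo the integers up to `2 H + 1`. -/
structure Well (s : Finset ℕ) (x : ℕ → ι → ℤ) (H : ℕ) : Prop where
  pos : 0 < s.card
  dist : ∀ q : ℕ, 1 ≤ q → q ≤ 2 * H + 1 → ∀ ρ : ι → ZMod q,
    |((#{n ∈ s | red q (x n) = ρ} : ℕ) : ℝ) / s.card - 1 / (q : ℝ) ^ Fintype.card ι| ≤
      1 / (2 * H + 1) * (1 / (q : ℝ) ^ Fintype.card ι)

variable {s : Finset ℕ} {x : ℕ → ι → ℤ} {H : ℕ}

theorem SA_add (f g : (ι → ℤ) → ℝ) : SA s x (fun c => f c + g c) = SA s x f + SA s x g := by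
  simp [SA, Finset.sum_add_distrib, add_div]

theorem SA_mulc (t : ℝ) (f : (ι → ℤ) → ℝ) : SA s x (fun c => t * f c) = t * SA s x f := by
  simp [SA, ← Finset.mul_sum, mul_div_assoc]

theorem SA_sum {κ : Type*} (u : Finset κ) (f : κ → (ι → ℤ) → ℝ) :
    SA s x (fun c => ∑ k ∈ u, f k c) = ∑ k ∈ u, SA s x (f k) := by
  simp only [SA]
  rw [Finset.sum_comm, Finset.sum_div]

theorem SA_const (hw : Well s x H) (t : ℝ) : SA s x (fun _ : ι → ℤ => t) = t := by
  unfold SA
  have : (0 : ℝ) < s.card := by exact_mod_cast hw.pos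
  rw [Finset.sum_const, nsmul_eq_mul]
  field_simp

theorem SA_near (hw : Well s x H) (q : ℕ) [NeZero q] (hq : q ≤ 2 * H + 1) (f : (ι → ZMod q) → ℝ) :
    |SA s x (fun c => f (red q c)) - EM q f| ≤ 1 / (2 * H + 1) * EM q (fun c => |f c|) := by
  classical
  have hs : (0 : ℝ) < s.card := by exact_mod_cast hw.pos
  have hq1 : 1 ≤ q := Nat.pos_of_ne_zero (NeZero.ne q)
  have e1 : SA s x (fun c => f (red q c)) =
      ∑ ρ : ι → ZMod q, ((#{n ∈ s | red q (x n) = ρ} : ℕ) : ℝ) / s.card * f ρ := by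
    unfold SA
    rw [← Finset.sum_fiberwise' s (fun n => red q (x n)) f, Finset.sum_div]
    refine Finset.sum_congr rfl fun ρ _ => ?_
    rw [Finset.sum_const, nsmul_eq_mul]
    ring
  have e2 : EM q f = ∑ ρ : ι → ZMod q, 1 / (q : ℝ) ^ Fintype.card ι * f ρ := by
    unfold EM
    rw [← Finset.mul_sum]
    ring
  have e3 : 1 / (2 * (H : ℝ) + 1) * EM q (fun c => |f c|) =
      ∑ ρ : ι → ZMod q, 1 / (2 * (H : ℝ) + 1) * (1 / (q : ℝ) ^ Fintype.card ι) * |f ρ| := by
    unfold EM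
    rw [← Finset.mul_sum]
    ring
  rw [e1, e2, e3, ← Finset.sum_sub_distrib]
  refine (Finset.abs_sum_le_sum_abs _ _).trans (Finset.sum_le_sum fun ρ _ => ?_)
  rw [← sub_mul, abs_mul]
  exact mul_le_mul_of_nonneg_right (hw.dist q hq1 hq ρ) (abs_nonneg _)

theorem SA_two (hw : Well s x H) (p q : ℕ) [NeZero p] [NeZero q] (hpq : Nat.Coprime p q)
    (hH : p * q ≤ 2 * H + 1) (f : (ι → ZMod p) → ℝ) (g : (ι → ZMod q) → ℝ) :
    |SA s x (fun c => f (red p c) * g (red q c)) - EM p f * EM q g| ≤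
      1 / (2 * H + 1) * (EM p (fun r => |f r|) * EM q (fun r => |g r|)) := by
  classical
  have hs : (0 : ℝ) < s.card := by exact_mod_cast hw.pos
  have hp1 : 1 ≤ p := Nat.pos_of_ne_zero (NeZero.ne p)
  have hq1 : 1 ≤ q := Nat.pos_of_ne_zero (NeZero.ne q)
  set k := Fintype.card ι with hk
  have hcoef : ∀ r : (ι → ZMod p) × (ι → ZMod q),
      |((#{n ∈ s | red p (x n) = r.1 ∧ red q (x n) = r.2} : ℕ) : ℝ) / s.card -
        1 / ((p : ℝ) ^ k * (q : ℝ) ^ k)| ≤ 1 / (2 * H + 1) * (1 / ((p : ℝ) ^ k * (q : ℝ) ^ k)) := by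
    intro r
    set ρ : ι → ZMod (p * q) := fun i => (ZMod.chineseRemainder hpq).symm (r.1 i, r.2 i) with hρ
    have e : {n ∈ s | red p (x n) = r.1 ∧ red q (x n) = r.2} = {n ∈ s | red (p * q) (x n) = ρ} := by
      ext n
      simp only [Finset.mem_filter, and_congr_right_iff]
      intro _
      constructor
      · rintro ⟨h1, h2⟩
        funext i
        rw [hρ]
        simp only
        rw [← h1, ← h2]
        apply (ZMod.chineseRemainder hpq).injective
        rw [RingEquiv.apply_symm_apply]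
        exact Prod.ext (by simp [red]) (by simp [red])
      · intro h
        have h3 : ∀ i, ((x n i : ℤ) : ZMod (p * q)) = (ZMod.chineseRemainder hpq).symm (r.1 i, r.2 i) :=
          fun i => congrFun h i
        have h4 : ∀ i, (ZMod.chineseRemainder hpq) ((x n i : ℤ) : ZMod (p * q)) = (r.1 i, r.2 i) := by
          intro i
          rw [h3, RingEquiv.apply_symm_apply]
        constructor
        · funext i
          have := congrArg Prod.fst (h4 i)
          simpa [red] using this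
        · funext i
          have := congrArg Prod.snd (h4 i)
          simpa [red] using this
    rw [e]
    have h1 := hw.dist (p * q) (Nat.mul_pos hp1 hq1) hH ρ
    rw [← hk] at h1
    push_cast at h1
    rw [mul_pow] at h1
    exact h1
  have e1 : SA s x (fun c => f (red p c) * g (red q c)) =
      ∑ r : (ι → ZMod p) × (ι → ZMod q),
        ((#{n ∈ s | red p (x n) = r.1 ∧ red q (x n) = r.2} : ℕ) : ℝ) / s.card * (f r.1 * g r.2) := by
    unfold SA
    have := Finset.sum_fiberwise' s (fun n => (red p (x n), red q (x n)))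
      (fun r : (ι → ZMod p) × (ι → ZMod q) => f r.1 * g r.2)
    rw [← this, Finset.sum_div]
    refine Finset.sum_congr rfl fun r _ => ?_
    rw [Finset.sum_const, nsmul_eq_mul, mul_div_right_comm]
    congr 4
    ext n
    simp [Prod.ext_iff]
  have hprod : ∀ (f' : (ι → ZMod p) → ℝ) (g' : (ι → ZMod q) → ℝ), EM p f' * EM q g' =
      ∑ r : (ι → ZMod p) × (ι → ZMod q), 1 / ((p : ℝ) ^ k * (q : ℝ) ^ k) * (f' r.1 * g' r.2) := by
    intro f' g'
    unfold EM
    rw [← Finset.mul_sum, Fintype.sum_prod_type]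
    simp_rw [← Finset.mul_sum]
    rw [← Finset.sum_mul, ← hk]
    have hp0 : (0 : ℝ) < p := by exact_mod_cast hp1
    have hq0 : (0 : ℝ) < q := by exact_mod_cast hq1
    field_simp
  rw [e1, hprod f g, hprod (fun r => |f r|) (fun r => |g r|), ← Finset.sum_sub_distrib, Finset.mul_sum]
  refine (Finset.abs_sum_le_sum_abs _ _).trans (Finset.sum_le_sum fun r _ => ?_)
  rw [← sub_mul, abs_mul, abs_mul (f r.1) (g r.2)]
  have h0 : 0 ≤ |f r.1| * |g r.2| := by positivity
  calc _ ≤ 1 / (2 * (H : ℝ) + 1) * (1 / ((p : ℝ) ^ k * (q : ℝ) ^ k)) * (|f r.1| * |g r.2|) :=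
        mul_le_mul_of_nonneg_right (hcoef r) h0
    _ = _ := by ring

theorem two_le_pow [Nonempty ι] : (2 : ℝ) ≤ 2 ^ Fintype.card ι := by
  have h : 1 ≤ Fintype.card ι := Fintype.card_pos
  calc (2 : ℝ) = 2 ^ 1 := by norm_num
    _ ≤ _ := pow_le_pow_right₀ (by norm_num) h

theorem SA_le [Nonempty ι] (hw : Well s x H) (p : ℕ) [NeZero p] (hp : p ≤ 2 * H + 1)
    (g : (ι → ZMod p) → ℝ) (hg : ∀ r, 0 ≤ g r) :
    SA s x (fun c => g (red p c)) ≤ 2 ^ Fintype.card ι * EM p g := by
  have h1 := (abs_le.mp (SA_near hw p hp g)).2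
  have e : (fun c => |g c|) = g := by funext c; exact abs_of_nonneg (hg c)
  rw [e] at h1
  have h2 : 0 ≤ EM p g := EM_nonneg p g hg
  have h3 : 1 / (2 * (H : ℝ) + 1) ≤ 1 := by
    rw [div_le_one (by positivity)]
    have : (0 : ℝ) ≤ H := by positivity
    linarith
  have h4 := two_le_pow (ι := ι)
  nlinarith

theorem SA_two' [Nonempty ι] (hw : Well s x H) (p q : ℕ) [NeZero p] [NeZero q] (hpq : Nat.Coprime p q)
    (hH : p * q ≤ 2 * H + 1) (f : (ι → ZMod p) → ℝ) (g : (ι → ZMod q) → ℝ) :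
    |SA s x (fun c => f (red p c) * g (red q c)) - EM p f * EM q g| ≤
      2 ^ Fintype.card ι * ((p : ℝ) * q / (2 * H + 1)) * (EM p (fun r => |f r|) *
        EM q (fun r => |g r|)) := by
  refine (SA_two hw p q hpq hH f g).trans ?_
  have h1 : 0 ≤ EM p (fun r => |f r|) * EM q (fun r => |g r|) :=
    mul_nonneg (EM_nonneg p _ fun _ => abs_nonneg _) (EM_nonneg q _ fun _ => abs_nonneg _)
  apply mul_le_mul_of_nonneg_right _ h1
  have h2 : (1 : ℝ) ≤ (p : ℝ) * q := by
    have hp1 : 1 ≤ p := Nat.pos_of_ne_zero (NeZero.ne p)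
    have hq1 : 1 ≤ q := Nat.pos_of_ne_zero (NeZero.ne q)
    exact_mod_cast Nat.mul_pos hp1 hq1
  have h3 := two_le_pow (ι := ι)
  have h4 : 1 / (2 * (H : ℝ) + 1) ≤ (p : ℝ) * q / (2 * H + 1) := by gcongr
  have h5 : 0 ≤ (p : ℝ) * q / (2 * H + 1) := by positivity
  nlinarith

end

end Pool.Agent.N666.TM
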