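import Pool.Agent.N666.TM.St

set_option autoImplicit false
set_option linter.unusedSectionVars false

/-! # Euler products over the rational numbers given by local functions of the parameters, along thin sequences -/

namespace Pool.Agent.N666.TM.RQ

open MeasureTheory Filter Topology
open Pool.Agent.N534.PS (Pow lamT rect)
open Pool.Agent.N534.HC.St (rectangle)
open Pool.Agent.N534.EC.State (Residues uniform lift primesUpTo)
open Pool.Agent.N666.TM (BoundedOn fl WellSeq)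
open Pool.Agent.N666.VE (primes)
open Pool.Agent.N666.TM.St (ConvergesTo)

section
variable {ι : Type} [Fintype ι] [DecidableEq ι] [Nonempty ι]
variable {w p0 : ℕ} {T : ∀ p : ℕ, ℕ → (ι → ZMod p) → ℝ} {Bad : ∀ p : ℕ, (ι → ZMod p) → Prop}
  {L : (ι → ℤ) → ℂ → Nat.Primes → ℂ} {D : ℝ}

/-- the supremum near the edge -/
theorem avgT (hL : ∀ (c : ι → ℤ) (s : ℂ) (p : Nat.Primes), L c s p = lamT w p0 T Bad c (p : ℕ) (s - (1 + (w : ℂ) / 2)))
    (hp : Pow D w p0 T Bad) {F : ι → Finset ℝ} {a : ι → ℝ → ℝ} {c : ι → ℝ}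
    (hF : ∀ i, c i ∈ F i ∧ (∀ t ∈ F i, t ≤ c i) ∧ 0 < c i ∧ (∀ m : ℕ, c i ≠ m) ∧ 0 < a i (c i))
    (hc : Function.Injective c) : ∃ C : ℝ, 0 < C ∧ ∃ N₀ : ℕ, ∀ N : ℕ, N₀ ≤ N → ∀ τ : ℝ, 0 ≤ τ →
      BoundedOn (fun n s => ∑' p : Nat.Primes, L (fl F a n) s p) (Finset.Ioc N (2 * N))
        (rectangle w N τ) (C * (1 + τ)) ∧
      BoundedOn (fun n s => ∑' p : Nat.Primes, L (fl F a n) s p) (primes N)
        (rectangle w N τ) (C * (1 + τ)) := by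
  have hlog : ∀ (c : ι → ℤ) (s : ℂ), ∑' p : Nat.Primes, L c s p =
      ∑' p : Nat.Primes, lamT w p0 T Bad c (p : ℕ) (s - (1 + (w : ℂ) / 2)) := fun c s => tsum_congr fun p => hL c s p
  obtain ⟨C, hC, N₀, hav⟩ := Pool.Agent.N666.TM.pow_avg_two hp hF hc
  have hrect : ∀ (H : ℕ) (τ : ℝ) (s : ℂ), s ∈ rectangle w H τ → s - (1 + (w : ℂ) / 2) ∈ rect H τ := by
    intro H τ s hs
    obtain ⟨h1, h2, h3⟩ := hs
    refine ⟨?_, ?_, ?_⟩
    · rw [Pool.Agent.N534.AS.State.re_sub]; linarith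
    · rw [Pool.Agent.N534.AS.State.re_sub]; linarith
    · rw [Pool.Agent.N534.AS.State.im_sub]; exact h3
  have key : ∀ (S : Finset ℕ) (N : ℕ) (τ B : ℝ),
      BoundedOn (fun n u => ∑' p : Nat.Primes, lamT w p0 T Bad (fl F a n) p u) S (rect N τ) B →
      BoundedOn (fun n s => ∑' p : Nat.Primes, L (fl F a n) s p) S (rectangle w N τ) B := by
    rintro S N τ B ⟨h1, h2⟩
    refine ⟨fun S' hS' s hs => ?_, fun δ hδ => ?_⟩
    · have h3 := h1 S' hS' (fun n => s n - (1 + (w : ℂ) / 2)) (fun n hn => hrect N τ _ (hs n hn))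
      simp only [← hlog] at h3
      exact h3
    · obtain ⟨X, hX1, hX2, hX3⟩ := h2 δ hδ
      refine ⟨X, hX1, hX2, fun n hn s hs => ?_⟩
      have h3 := hX3 n hn _ (hrect N τ s hs)
      simp only [← hlog] at h3
      exact h3
  exact ⟨C, hC, N₀, fun N hN τ hτ => ⟨key _ _ _ _ (hav N hN τ hτ).1, key _ _ _ _ (hav N hN τ hτ).2⟩⟩

theorem prod_eq (hL : ∀ (c : ι → ℤ) (s : ℂ) (p : Nat.Primes), L c s p = lamT w p0 T Bad c (p : ℕ) (s - (1 + (w : ℂ) / 2)))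
    (hp : Pow D w p0 T Bad) (c : ι → ℤ) (s : ℂ) (hs : 1 + (w : ℝ) / 2 < s.re) :
    ∏' p : Nat.Primes, Complex.exp (L c s p) = Complex.exp (∑' p : Nat.Primes, L c s p) := by
  have hlog : ∑' p : Nat.Primes, L c s p =
      ∑' p : Nat.Primes, lamT w p0 T Bad c (p : ℕ) (s - (1 + (w : ℂ) / 2)) := tsum_congr fun p => hL c s p
  rw [hlog, ← hp.exp_lam c (by rw [Pool.Agent.N534.AS.State.re_sub]; linarith)]
  exact tprod_congr fun p => by rw [hL]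

theorem randomLog_eq (hL : ∀ (c : ι → ℤ) (s : ℂ) (p : Nat.Primes), L c s p = lamT w p0 T Bad c (p : ℕ) (s - (1 + (w : ℂ) / 2)))
    (z : ℕ) (s : ℂ) (x : Residues ι) :
    ∑ p ∈ primesUpTo z, L (lift x p) s p = Pool.Agent.N534.LL.Y (lamT w p0 T Bad) z (s - (1 + (w : ℂ) / 2)) x := by
  unfold Pool.Agent.N534.LL.Y
  rw [Pool.Agent.N534.EC.State.range_PS]
  exact Finset.sum_congr rfl fun p _ => hL (lift x p) s p

/-- the limit law -/
theorem lawS (hL : ∀ (c : ι → ℤ) (s : ℂ) (p : Nat.Primes), L c s p = lamT w p0 T Bad c (p : ℕ) (s - (1 + (w : ℂ) / 2)))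
    (hp : Pow D w p0 T Bad) {κ : Type} [Fintype κ] (s : κ → ℂ) (hs : ∀ k, 1 + (w : ℝ) / 2 ≤ (s k).re) :
    ∃ Z : κ → Residues ι → ℂ, (∀ k, Measurable (Z k)) ∧ (∀ k, Integrable (Z k) (uniform ι)) ∧
      (∀ k, Tendsto (fun z : ℕ => ∫ x, ‖∑ p ∈ primesUpTo z, L (lift x p) (s k) p - Z k x‖ ∂(uniform ι)) atTop (𝓝 0)) ∧
      ∀ (S : ℕ → Finset ℕ) (x : ℕ → ι → ℤ) (ρ : ℝ), 0 < ρ → WellSeq S x ρ →
      ∀ σ : ℕ → κ → ℂ, (∀ k, Tendsto (fun H => σ H k) atTop (𝓝 (s k))) →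
        (∀ k, Tendsto (fun H : ℕ => ((σ H k).re - (1 + (w : ℝ) / 2)) * Real.log H) atTop atTop) →
        ConvergesTo S (fun H n k => ∏' p : Nat.Primes, Complex.exp (L (x n) (σ H k) p)) Z := by
  set e : ℂ := 1 + (w : ℂ) / 2 with he
  have hre : ∀ z : ℂ, (z - e).re = z.re - (1 + (w : ℝ) / 2) := fun z => Pool.Agent.N534.AS.State.re_sub z _
  obtain ⟨Z, h1, h2, h3, h4⟩ := Pool.Agent.N666.TM.lawT hp.sys (fun k => s k - e)
    (fun k => by rw [hre]; linarith [hs k])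
  refine ⟨Z, h1, h2, fun k => ?_, fun S x ρ hρ hS σ hσ hσl => ?_⟩
  · have h5 := h3 k
    simp only [he, ← randomLog_eq hL] at h5
    exact h5
  · have hlogN : Tendsto (fun H : ℕ => Real.log H) atTop atTop :=
      Real.tendsto_log_atTop.comp tendsto_natCast_atTop_atTop
    have hpos : ∀ k, ∀ᶠ H : ℕ in atTop, 1 + (w : ℝ) / 2 < (σ H k).re := by
      intro k
      filter_upwards [(hσl k).eventually_gt_atTop 0, hlogN.eventually_gt_atTop 0] with H h1 h2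
      have := pos_of_mul_pos_left h1 h2.le
      linarith
    exact h4 S x ρ hρ hS (fun H k => σ H k - e) (fun k => (hσ k).sub_const _) (fun k => by
      simpa only [hre] using hσl k)
      (fun H n k => ∏' p : Nat.Primes, Complex.exp (L (x n) (σ H k) p)) (by
      filter_upwards [eventually_all.mpr hpos] with H hH n _ k
      rw [prod_eq hL hp (x n) _ (hH k)]
      congr 1
      exact tsum_congr fun p => hL _ _ p)

/-- everything for generalised polynomials -/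
theorem thin_Q (hL : ∀ (c : ι → ℤ) (s : ℂ) (p : Nat.Primes), L c s p = lamT w p0 T Bad c (p : ℕ) (s - (1 + (w : ℂ) / 2)))
    (hp : Pow D w p0 T Bad) {F : ι → Finset ℝ} {a : ι → ℝ → ℝ} {c : ι → ℝ}
    (hF : ∀ i, c i ∈ F i ∧ (∀ t ∈ F i, t ≤ c i) ∧ 0 < c i ∧ (∀ m : ℕ, c i ≠ m) ∧ 0 < a i (c i))
    (hc : Function.Injective c) :
    (∀ (v : ι → ℤ) (s : ℂ), 1 + (w : ℝ) / 2 < s.re →
      ∏' p : Nat.Primes, Complex.exp (L v s p) = Complex.exp (∑' p : Nat.Primes, L v s p)) ∧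
    (∃ C : ℝ, 0 < C ∧ ∃ N₀ : ℕ, ∀ N : ℕ, N₀ ≤ N → ∀ τ : ℝ, 0 ≤ τ →
      BoundedOn (fun n s => ∑' p : Nat.Primes, L (fl F a n) s p) (Finset.Ioc N (2 * N))
        (rectangle w N τ) (C * (1 + τ)) ∧
      BoundedOn (fun n s => ∑' p : Nat.Primes, L (fl F a n) s p) (primes N)
        (rectangle w N τ) (C * (1 + τ))) ∧
    ∀ {κ : Type} [Fintype κ] (s : κ → ℂ), (∀ k, 1 + (w : ℝ) / 2 ≤ (s k).re) →
      ∃ Z : κ → Residues ι → ℂ, (∀ k, Measurable (Z k)) ∧ (∀ k, Integrable (Z k) (uniform ι)) ∧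
        (∀ k, Tendsto (fun z : ℕ => ∫ x, ‖∑ p ∈ primesUpTo z, L (lift x p) (s k) p - Z k x‖ ∂(uniform ι)) atTop (𝓝 0)) ∧
        ∀ σ : ℕ → κ → ℂ, (∀ k, Tendsto (fun N => σ N k) atTop (𝓝 (s k))) →
          (∀ k, Tendsto (fun N : ℕ => ((σ N k).re - (1 + (w : ℝ) / 2)) * Real.log N) atTop atTop) →
          ConvergesTo (fun N => Finset.Ioc N (2 * N))
            (fun N n k => ∏' p : Nat.Primes, Complex.exp (L (fl F a n) (σ N k) p)) Z ∧
          ConvergesTo (fun N => primes N)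
            (fun N n k => ∏' p : Nat.Primes, Complex.exp (L (fl F a n) (σ N k) p)) Z := by
  refine ⟨fun v s hs => prod_eq hL hp v s hs, avgT hL hp hF hc, fun s hs => ?_⟩
  obtain ⟨⟨κ₁, hκ₁, g₁⟩, ⟨κ₂, hκ₂, g₂⟩⟩ := Pool.Agent.N666.TM.fl_well hF hc
  obtain ⟨Z, h1, h2, h3, h4⟩ := lawS hL hp s hs
  exact ⟨Z, h1, h2, h3, fun σ hσ hσl => ⟨h4 _ _ κ₁ hκ₁ g₁ σ hσ hσl, h4 _ _ κ₂ hκ₂ g₂ σ hσ hσl⟩⟩

end

end Pool.Agent.N666.TM.RQ
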