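import Pool.Agent.N666.TM.Thin
import Pool.Agent.N534.LL.Final

set_option autoImplicit false
set_option linter.unusedSectionVars false

/-! # The limit law along a well distributed sequence of vectors

The proofs follow `Pool.Agent.N534.LL` (boxes). -/

namespace Pool.Agent.N666.TM

open Finset MeasureTheory Filter Topology
open Pool.Agent.Y722.HS Pool.Agent.Y722.LS Pool.Agent.N534.LF Pool.Agent.N534.TL
open Pool.Agent.N534.LL (K5 S5 K5_nonneg sum_above K1_nonneg S5_nonneg Sys Y PP PS chg chg_le chg_tendsto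
  mr tail_min lip_sum lip_bdd int_F int_close redS md crt crt_red EM_crt pi_unif gY gY_redS Y_eq
  tendsto_rpow_quarter liftp unif exists_Z)

section
variable {ι : Type} [Fintype ι] [DecidableEq ι] [Nonempty ι]
variable {A β : ℝ} {N B : ∀ p : ℕ, (ι → ZMod p) → ℝ} {s : Finset ℕ} {x : ℕ → ι → ℤ} {H : ℕ}

theorem SA_mono (f g : (ι → ℤ) → ℝ) (h : ∀ c, f c ≤ g c) : SA s x f ≤ SA s x g := by
  unfold SA
  gcongr
  exact h _

theorem SA_abs_sub (f g e : (ι → ℤ) → ℝ) (h : ∀ c, |f c - g c| ≤ e c) :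
    |SA s x f - SA s x g| ≤ SA s x e := by
  have h1 : SA s x f ≤ SA s x (fun c => g c + e c) :=
    SA_mono _ _ fun c => by have := abs_le.mp (h c); linarith
  have h2 : SA s x g ≤ SA s x (fun c => f c + e c) :=
    SA_mono _ _ fun c => by have := abs_le.mp (h c); linarith
  rw [SA_add] at h1 h2
  exact abs_le.mpr ⟨by linarith, by linarith⟩

theorem WW_tail (h : Fam A N B) (hws : Well s x H) (y z : ℕ) (hz : 1 ≤ z) (hy : y ^ 4 ≤ H) (w : ℕ → ℝ)
    (hw : ∀ p ∈ PR y, |w p| ≤ 1) :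
    SA s x (fun c : ι → ℤ => WW N y (fun p => if z < p then w p else 0) c ^ 2) ≤
      K1 ι A * (z : ℝ) ^ (-(1 / 2) : ℝ) := by
  have hz0 : (0 : ℝ) < z := by exact_mod_cast hz
  set t : ℝ := (z : ℝ) ^ ((1 : ℝ) / 4) with ht
  have ht0 : 0 < t := by positivity
  have h1 := SA_WW_sq h hws y hy (fun p => t * (if z < p then w p else 0)) (by
    intro p hp
    have hp1 : (1 : ℝ) ≤ p := by exact_mod_cast (mem_PR.mp hp).2.one_lt.le
    split_ifs with hzp
    · rw [abs_mul, abs_of_pos ht0]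
      have h2 : t ≤ (p : ℝ) ^ ((1 : ℝ) / 4) :=
        Real.rpow_le_rpow hz0.le (by exact_mod_cast hzp.le) (by norm_num)
      have h3 := hw p hp
      have h4 : 0 ≤ (p : ℝ) ^ ((1 : ℝ) / 4) := by positivity
      calc t * |w p| ≤ (p : ℝ) ^ ((1 : ℝ) / 4) * 1 := by gcongr
        _ ≤ _ := by linarith
    · rw [mul_zero, abs_zero]
      positivity)
  have h2 : (fun c : ι → ℤ => WW N y (fun p => t * (if z < p then w p else 0)) c ^ 2) =
      fun c => t ^ 2 * WW N y (fun p => if z < p then w p else 0) c ^ 2 := by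
    funext c
    rw [← mul_pow]
    congr 1
    unfold WW
    rw [Finset.mul_sum]
    exact Finset.sum_congr rfl fun p _ => by ring
  rw [h2, SA_mulc] at h1
  have h3 : (z : ℝ) ^ (-(1 / 2) : ℝ) = (t ^ 2)⁻¹ := by
    rw [ht, ← Real.rpow_natCast, ← Real.rpow_mul hz0.le, ← Real.rpow_neg hz0.le]
    norm_num
  rw [h3, ← div_eq_mul_inv, le_div_iff₀ (by positivity)]
  linarith

/-- **The tail in the mean.** -/
theorem tailL (h : Fam A N B) (hws : Well s x H) (hβ : 0 ≤ β) (lam : (ι → ℤ) → ℕ → ℂ → ℂ)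
    (hlam : ∀ c, Loc β N B c (lam c)) (u : ℂ) (hu : 0 ≤ u.re) (y z : ℕ) (hz : 1 ≤ z) (hy : y ^ 4 ≤ H) :
    SA s x (fun c : ι → ℤ => ‖∑ p ∈ (PR y).filter (fun p => z < p), lam c p u‖) ≤
      K5 ι A β * (z : ℝ) ^ (-(1 / 4) : ℝ) := by
  have hz0 : (0 : ℝ) < z := by exact_mod_cast hz
  have hA := h.A0
  have hyH : y ≤ 2 * H + 1 := by
    rcases Nat.eq_zero_or_pos y with h0 | h0
    · omega
    · have h1 : y ^ 1 ≤ y ^ 4 := Nat.pow_le_pow_right h0 (by norm_num)
      rw [pow_one] at h1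
      omega
  set a : ℝ := (z : ℝ) ^ ((1 : ℝ) / 4) with ha
  have ha0 : 0 < a := by positivity
  have hainv : (z : ℝ) ^ (-(1 / 4) : ℝ) = a⁻¹ := by
    rw [ha, ← Real.rpow_neg hz0.le]
  have hainv2 : (z : ℝ) ^ (-(1 / 2) : ℝ) = (a ^ 2)⁻¹ := by
    rw [ha, ← Real.rpow_natCast, ← Real.rpow_mul hz0.le, ← Real.rpow_neg hz0.le]
    norm_num
  set X : (ι → ℤ) → ℝ := fun c => WW N y (fun p => if z < p then ((p : ℂ) ^ (-u)).re else 0) c ^ 2 +
    WW N y (fun p => if z < p then ((p : ℂ) ^ (-u)).im else 0) c ^ 2 with hX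
  have hnorm : ∀ p ∈ PR y, ‖(p : ℂ) ^ (-u)‖ ≤ 1 := by
    intro p hp
    have hpp := (mem_PR.mp hp).2
    rw [Complex.norm_natCast_cpow_of_pos hpp.pos]
    exact Real.rpow_le_one_of_one_le_of_nonpos (by exact_mod_cast hpp.one_lt.le) (by simpa using hu)
  have h1 : SA s x X ≤ 2 * K1 ι A * (a ^ 2)⁻¹ := by
    rw [hX, SA_add]
    have e1 := WW_tail h hws y z hz hy (fun p => ((p : ℂ) ^ (-u)).re)
      fun p hp => (Complex.abs_re_le_norm _).trans (hnorm p hp)
    have e2 := WW_tail h hws y z hz hy (fun p => ((p : ℂ) ^ (-u)).im)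
      fun p hp => (Complex.abs_im_le_norm _).trans (hnorm p hp)
    rw [hainv2] at e1 e2
    linarith
  have h2 : ∀ c : ι → ℤ, ‖∑ p ∈ (PR y).filter (fun p => z < p), lam c p u‖ ≤
      (a * X c + a⁻¹) + ∑ p ∈ (PR y).filter (fun p => z < p), (bb N B β p (red p c) +
        β * (1 / (p : ℝ) ^ ((3 : ℝ) / 2))) := by
    intro c
    have e1 : ∑ p ∈ (PR y).filter (fun p => z < p), lam c p u =
        (∑ p ∈ (PR y).filter (fun p => z < p), (p : ℂ) ^ (-u) * (N p (red p c) : ℂ)) +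
        ∑ p ∈ (PR y).filter (fun p => z < p), (lam c p u - (p : ℂ) ^ (-u) * (N p (red p c) : ℂ)) := by
      rw [← Finset.sum_add_distrib]
      exact Finset.sum_congr rfl fun p _ => by ring
    rw [e1]
    refine (norm_add_le _ _).trans (add_le_add ?_ ?_)
    · set W : ℂ := ∑ p ∈ (PR y).filter (fun p => z < p), (p : ℂ) ^ (-u) * (N p (red p c) : ℂ) with hW
      have e2 : ‖W‖ ^ 2 = X c := by
        rw [Complex.sq_norm, Complex.normSq_apply, hX]
        have e3 : W.re = WW N y (fun p => if z < p then ((p : ℂ) ^ (-u)).re else 0) c := by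
          rw [hW, Complex.re_sum, Finset.sum_filter]
          unfold WW
          refine Finset.sum_congr rfl fun p _ => ?_
          by_cases hzp : z < p
          · simp only [if_pos hzp, Complex.re_mul_ofReal]
          · simp only [if_neg hzp, zero_mul, Complex.zero_re]
        have e4 : W.im = WW N y (fun p => if z < p then ((p : ℂ) ^ (-u)).im else 0) c := by
          rw [hW, Complex.im_sum, Finset.sum_filter]
          unfold WW
          refine Finset.sum_congr rfl fun p _ => ?_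
          by_cases hzp : z < p
          · simp only [if_pos hzp, Complex.im_mul_ofReal]
          · simp only [if_neg hzp, zero_mul, Complex.zero_im]
        rw [e3, e4]
        ring
      rw [← e2]
      have e5 : 0 ≤ (a * ‖W‖ - 1) ^ 2 := sq_nonneg _
      have e6 : ‖W‖ * a ≤ (a * ‖W‖ ^ 2 + a⁻¹) * a := by
        have : (a * ‖W‖ ^ 2 + a⁻¹) * a = a ^ 2 * ‖W‖ ^ 2 + 1 := by field_simp
        rw [this]
        nlinarith [norm_nonneg W]
      exact le_of_mul_le_mul_right e6 ha0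
    · refine (norm_sum_le _ _).trans (Finset.sum_le_sum fun p hp => ?_)
      exact (hlam c).near p (mem_PR.mp (Finset.mem_filter.mp hp).1).2 u hu
  refine (SA_mono _ _ h2).trans ?_
  rw [SA_add, SA_add, SA_mulc, SA_const hws, SA_sum]
  have h3 : ∀ p ∈ (PR y).filter (fun p => z < p), SA s x (fun c : ι → ℤ => bb N B β p (red p c) +
      β * (1 / (p : ℝ) ^ ((3 : ℝ) / 2))) ≤
      (2 ^ Fintype.card ι * ((2 + β) * A) + β) * (1 / (p : ℝ) ^ ((3 : ℝ) / 2)) := by
    intro p hp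
    have hpp := (mem_PR.mp (Finset.mem_filter.mp hp).1)
    have := Fact.mk hpp.2
    rw [SA_add, SA_const hws]
    have e1 := SA_le (ι := ι) hws p (hpp.1.trans hyH) (fun r => bb N B β p r)
      (fun r => h.bb_nonneg hβ p r)
    have e2 := mul_le_mul_of_nonneg_left (h.EM_bb hβ p) (by positivity : (0 : ℝ) ≤ 2 ^ Fintype.card ι)
    calc _ ≤ 2 ^ Fintype.card ι * ((2 + β) * A * (1 / (p : ℝ) ^ ((3 : ℝ) / 2))) +
          β * (1 / (p : ℝ) ^ ((3 : ℝ) / 2)) := by linarith
      _ = _ := by ring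
  have h4 : ∑ p ∈ (PR y).filter (fun p => z < p), SA s x (fun c : ι → ℤ => bb N B β p (red p c) +
      β * (1 / (p : ℝ) ^ ((3 : ℝ) / 2))) ≤
      (2 ^ Fintype.card ι * ((2 + β) * A) + β) * (S5 * (z : ℝ) ^ (-(1 / 4) : ℝ)) := by
    refine (Finset.sum_le_sum h3).trans ?_
    rw [← Finset.mul_sum]
    exact mul_le_mul_of_nonneg_left (sum_above z y hz) (by positivity)
  have h5 : a * SA s x X ≤ 2 * K1 ι A * a⁻¹ := by
    calc a * SA s x X ≤ a * (2 * K1 ι A * (a ^ 2)⁻¹) := by gcongr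
      _ = _ := by field_simp
  rw [hainv] at h4 ⊢
  unfold K5
  calc _ ≤ 2 * K1 ι A * a⁻¹ + a⁻¹ +
        (2 ^ Fintype.card ι * ((2 + β) * A) + β) * (S5 * a⁻¹) := by linarith
    _ = _ := by ring


/-- the sets `S N` and the vectors are well distributed for the moduli up to a power of `N` -/
def WellSeq (S : ℕ → Finset ℕ) (x : ℕ → ι → ℤ) (κ : ℝ) : Prop :=
  ∃ N₀ : ℕ, ∀ N : ℕ, N₀ ≤ N → ∀ H : ℕ, (H : ℝ) ≤ (N : ℝ) ^ κ → Well (S N) x H

variable {S : ℕ → Finset ℕ} {ρ : ℝ}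

theorem exists_y' (hρ : 0 < ρ) (hS : WellSeq S x ρ) : ∃ N₀ : ℕ, ∀ N : ℕ, N₀ ≤ N → ∃ y H : ℕ,
    1 ≤ y ∧ y ^ 4 ≤ H ∧ Well (S N) x H ∧ ρ / 4 * Real.log N ≤ Real.log (y + 1) := by
  obtain ⟨N₁, hN₁⟩ := hS
  refine ⟨N₁ + 3, fun N hN => ?_⟩
  have hN3 : (3 : ℝ) ≤ N := by exact_mod_cast (by omega : 3 ≤ N)
  have hN0 : (0 : ℝ) < N := by linarith
  set y : ℕ := ⌊(N : ℝ) ^ (ρ / 4)⌋₊ with hy
  have hy1 : 1 ≤ y := by
    rw [hy, Nat.one_le_floor_iff]
    exact Real.one_le_rpow (by linarith) (by positivity)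
  have hyH : ((y ^ 4 : ℕ) : ℝ) ≤ (N : ℝ) ^ ρ := by
    push_cast
    have h1 : (y : ℝ) ≤ (N : ℝ) ^ (ρ / 4) := Nat.floor_le (by positivity)
    calc (y : ℝ) ^ 4 ≤ ((N : ℝ) ^ (ρ / 4)) ^ 4 := by gcongr
      _ = (N : ℝ) ^ ρ := by
          rw [← Real.rpow_natCast, ← Real.rpow_mul hN0.le]
          norm_num
  refine ⟨y, y ^ 4, hy1, le_rfl, hN₁ N (by omega) (y ^ 4) hyH, ?_⟩
  rw [← Real.log_rpow hN0]
  apply Real.log_le_log (by positivity)
  exact (Nat.lt_floor_add_one _).le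

theorem well_ev (hρ : 0 < ρ) (hS : WellSeq S x ρ) (H : ℕ) : ∀ᶠ N : ℕ in atTop, Well (S N) x H := by
  obtain ⟨N₁, hN₁⟩ := hS
  have h1 : Tendsto (fun N : ℕ => (N : ℝ) ^ ρ) atTop atTop :=
    (tendsto_rpow_atTop hρ).comp tendsto_natCast_atTop_atTop
  filter_upwards [h1.eventually_ge_atTop (H : ℝ), eventually_ge_atTop N₁] with N h2 h3
  exact hN₁ N h3 H h2

theorem SA_lim (hρ : 0 < ρ) (hS : WellSeq S x ρ) (m : ℕ) [NeZero m] (f : (ι → ZMod m) → ℝ) :
    Tendsto (fun N : ℕ => SA (S N) x (fun c : ι → ℤ => f (red m c))) atTop (𝓝 (EM m f)) := by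
  rw [Metric.tendsto_atTop']
  intro ε hε
  obtain ⟨H, hH⟩ := exists_nat_gt (EM m (fun r => |f r|) / ε + m)
  have hE : 0 ≤ EM m (fun r => |f r|) := EM_nonneg m _ fun _ => abs_nonneg _
  have hm : m ≤ 2 * H + 1 := by
    have h1 : (m : ℝ) < H := by
      have : 0 ≤ EM m (fun r => |f r|) / ε := by positivity
      linarith
    have h2 : m < H := by exact_mod_cast h1
    omega
  obtain ⟨N₀, hN₀⟩ := eventually_atTop.mp (well_ev hρ hS H)
  refine ⟨N₀, fun N hN => ?_⟩
  rw [Real.dist_eq]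
  refine lt_of_le_of_lt (SA_near (hN₀ N hN.le) m hm f) ?_
  have h3 : EM m (fun r => |f r|) / ε < 2 * H + 1 := by
    have : (0 : ℝ) ≤ m := by positivity
    have : (0 : ℝ) ≤ H := by positivity
    linarith
  rw [div_lt_iff₀ hε] at h3
  rw [one_div, inv_mul_lt_iff₀ (by positivity)]
  linarith

theorem equi' (hρ : 0 < ρ) (hS : WellSeq S x ρ) (P : Finset Nat.Primes)
    (g : (∀ p : P, ι → ZMod ((p : Nat.Primes) : ℕ)) → ℝ) :
    Tendsto (fun N : ℕ => SA (S N) x (fun c : ι → ℤ => g (redS P c))) atTop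
      (𝓝 (∫ ω, g (P.restrict ω) ∂(PP ι))) := by
  have h1 : ∫ ω, g (P.restrict ω) ∂(PP ι) = EM (md P) (fun r : ι → ZMod (md P) => g (crt P r)) := by
    have h0 := integral_restrict_infinitePi (ι := Nat.Primes) (X := fun p : Nat.Primes => ι → ZMod (p : ℕ))
      (μ := fun p => unif ι p) (s := P) (f := g) (measurable_of_finite g).aestronglyMeasurable
    rw [pi_unif, ← EM_crt] at h0
    exact h0
  rw [h1]
  have h2 := SA_lim hρ hS (md P) (fun r : ι → ZMod (md P) => g (crt P r))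
  simpa only [crt_red] using h2

section
variable {κ : Type} [Fintype κ] {lam : (ι → ℤ) → ℕ → ℂ → ℂ}

/-- **The limit law, for bounded Lipschitz functions.** -/
theorem lip_law (hρ : 0 < ρ) (hS : WellSeq S x ρ) (h : Sys A β N B lam) (w : κ → ℂ) (hw : ∀ k, 0 ≤ (w k).re)
    (Z : κ → (∀ p : Nat.Primes, ι → ZMod (p : ℕ)) → ℂ) (hZm : ∀ k, Measurable (Z k))
    (hZi : ∀ k, Integrable (Z k) (PP ι))
    (hZ : ∀ k, ∀ z : ℕ, 1 ≤ z →
      ∫ ω, ‖Y lam z (w k) ω - Z k ω‖ ∂(PP ι) ≤ K5 ι A β * (z : ℝ) ^ (-(1 / 4) : ℝ))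
    (u : ℕ → κ → ℂ) (hu : ∀ k, Tendsto (fun H => u H k) atTop (𝓝 (w k)))
    (hul : ∀ k, Tendsto (fun H : ℕ => (u H k).re * Real.log H) atTop atTop)
    (F : (κ → ℂ) → ℝ) (hF : ∃ C : ℝ, ∀ x y, dist (F x) (F y) ≤ C) (L : NNReal) (hL : LipschitzWith L F) :
    Tendsto (fun H : ℕ => SA (S H) x (fun c : ι → ℤ => F (fun k => ∑' p : Nat.Primes, lam c p (u H k)))) atTop
      (𝓝 (∫ ω, F (fun k => Z k ω) ∂(PP ι))) := by
  have hlogN : Tendsto (fun H : ℕ => Real.log H) atTop atTop :=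
    Real.tendsto_log_atTop.comp tendsto_natCast_atTop_atTop
  have hpos : ∀ k, ∀ᶠ H : ℕ in atTop, 0 < (u H k).re := by
    intro k
    filter_upwards [(hul k).eventually_gt_atTop 0, hlogN.eventually_gt_atTop 0] with H h1 h2
    exact pos_of_mul_pos_left h1 h2.le
  have hmin : ∀ k, Tendsto (fun H : ℕ => mr (u H k) * Real.log H) atTop atTop := by
    intro k
    rw [tendsto_atTop]
    intro b
    filter_upwards [(hul k).eventually_ge_atTop b, hlogN.eventually_ge_atTop b,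
      hlogN.eventually_ge_atTop 0] with H h1 h2 h3
    rcases min_choice (u H k).re 1 with h4 | h4
    · unfold mr; rw [h4]; exact h1
    · unfold mr; rw [h4, one_mul]; exact h2
  -- the part above `y`
  set T : ℕ → κ → ℝ := fun H k => β * ((64 / ρ) / (mr (u H k) * Real.log H)) with hT
  have hT0 : ∀ k, Tendsto (fun H => T H k) atTop (𝓝 0) := by
    intro k
    have := (Tendsto.const_div_atTop (hmin k) (64 / ρ : ℝ)).const_mul β
    simpa using this
  have hK := K5_nonneg (ι := ι) (A := A) (β := β) h.fam.A0 h.beta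
  -- the comparison with the partial sums
  have hcmp : ∀ z : ℕ, 1 ≤ z → ∀ᶠ H : ℕ in atTop,
      |SA (S H) x (fun c : ι → ℤ => F (fun k => ∑' p : Nat.Primes, lam c p (u H k))) -
        SA (S H) x (fun c : ι → ℤ => F (fun k => ∑ p ∈ PR z, lam c p (w k)))| ≤
      L * ∑ k, (T H k + K5 ι A β * (z : ℝ) ^ (-(1 / 4) : ℝ) + chg lam z (u H k) (w k)) := by
    intro z hz
    have hy_large : ∀ᶠ H : ℕ in atTop, 4 / ρ * Real.log (z + 1) ≤ Real.log H :=
      hlogN.eventually_ge_atTop _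
    obtain ⟨N₀, hN₀⟩ := exists_y' hρ hS
    filter_upwards [eventually_ge_atTop (max 2 N₀), hy_large, eventually_all.mpr hpos] with H hH hHz hHu
    obtain ⟨y, H', hy1, hy4, hws, hyl⟩ := hN₀ H ((le_max_right _ _).trans hH)
    have hH2 : 2 ≤ H := (le_max_left _ _).trans hH
    have hzlog : Real.log (z + 1) ≤ ρ / 4 * Real.log H := by
      have : Real.log (z + 1) = ρ / 4 * (4 / ρ * Real.log (z + 1)) := by field_simp
      rw [this]
      gcongr
    have hlogH : 0 < Real.log H := Real.log_pos (by exact_mod_cast (by omega : 1 < H))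
    have hzy : z ≤ y := by
      have h1 : Real.log (z + 1) ≤ Real.log (y + 1) := by linarith
      have h2 : (z : ℝ) + 1 ≤ y + 1 := (Real.log_le_log_iff (by positivity) (by positivity)).mp h1
      have h3 : (z : ℝ) ≤ y := by linarith
      exact_mod_cast h3
    have hpt : ∀ c : ι → ℤ, |F (fun k => ∑' p : Nat.Primes, lam c p (u H k)) -
        F (fun k => ∑ p ∈ PR z, lam c p (w k))| ≤
        L * ∑ k, (T H k + ‖∑ p ∈ (PR y).filter (fun p => z < p), lam c p (u H k)‖ +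
          chg lam z (u H k) (w k)) := by
      intro c
      refine (lip_sum F L hL _ _).trans (mul_le_mul_of_nonneg_left (Finset.sum_le_sum fun k _ => ?_) L.2)
      have e1 : PR z = (PR y).filter (fun p => ¬ z < p) := by
        ext p
        rw [Finset.mem_filter, mem_PR, mem_PR, not_lt]
        exact ⟨fun h => ⟨⟨h.1.trans hzy, h.2⟩, h.1⟩, fun h => ⟨h.2, h.1.2⟩⟩
      have e2 := Finset.sum_filter_add_sum_filter_not (PR y) (fun p => z < p) (fun p => lam c p (u H k))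
      rw [← e1] at e2
      have e3 : (∑' p : Nat.Primes, lam c p (u H k)) - ∑ p ∈ PR z, lam c p (w k) =
          ((∑' p : Nat.Primes, lam c p (u H k)) - ∑ p ∈ PR y, lam c p (u H k)) +
          (∑ p ∈ (PR y).filter (fun p => z < p), lam c p (u H k)) +
          ((∑ p ∈ PR z, lam c p (u H k)) - ∑ p ∈ PR z, lam c p (w k)) := by
        rw [← e2]
        ring
      rw [e3]
      refine (norm_add_le _ _).trans (add_le_add ((norm_add_le _ _).trans (add_le_add ?_ le_rfl)) ?_)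
      · refine (tail_min h.beta c (lam c) (h.loc c) (hHu k) y hy1).trans ?_
        rw [hT]
        simp only
        apply mul_le_mul_of_nonneg_left _ h.beta
        have hm : 0 < mr (u H k) := lt_min (hHu k) one_pos
        have hly : 0 < Real.log (y + 1) := lt_of_lt_of_le (by positivity) hyl
        rw [div_div, div_le_div_iff₀ (by positivity) (by positivity)]
        have : 16 * (ρ * (mr (u H k) * Real.log H)) = 64 * (mr (u H k) * (ρ / 4 * Real.log H)) := by ring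
        rw [this]
        gcongr
      · exact chg_le h z (u H k) (w k) c
    refine (SA_abs_sub _ _ _ hpt).trans ?_
    rw [SA_mulc, SA_sum]
    refine mul_le_mul_of_nonneg_left (Finset.sum_le_sum fun k _ => ?_) L.2
    rw [SA_add, SA_add, SA_const hws, SA_const hws]
    have := tailL h.fam hws h.beta lam h.loc (u H k) (hHu k).le y z hz hy4
    linarith
  rw [Metric.tendsto_atTop']
  intro η hη
  -- the choice of `z`
  set m : ℝ := ((Fintype.card κ : ℕ) : ℝ) with hm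
  have hz : ∃ z : ℕ, 1 ≤ z ∧ 2 * (L * (m * (K5 ι A β * (z : ℝ) ^ (-(1 / 4) : ℝ)))) < η / 2 := by
    have h1 : Tendsto (fun z : ℕ => 2 * ((L : ℝ) * (m * (K5 ι A β * (z : ℝ) ^ (-(1 / 4) : ℝ))))) atTop (𝓝 0) := by
      have := (((tendsto_rpow_quarter.const_mul (K5 ι A β)).const_mul m).const_mul (L : ℝ)).const_mul 2
      simpa using this
    have h2 := (h1.eventually_lt_const (half_pos hη)).and (eventually_ge_atTop 1)
    obtain ⟨z, h3, h4⟩ := h2.exists
    exact ⟨z, h4, h3⟩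
  obtain ⟨z, hz1, hz2⟩ := hz
  -- the remaining terms
  have hR : Tendsto (fun H : ℕ => (L : ℝ) * (∑ k, (T H k + chg lam z (u H k) (w k))) +
      |SA (S H) x (fun c : ι → ℤ => F (fun k => ∑ p ∈ PR z, lam c p (w k))) -
        ∫ ω, F (fun k => Y lam z (w k) ω) ∂(PP ι)|) atTop (𝓝 0) := by
    have h1 : Tendsto (fun H : ℕ => ∑ k, (T H k + chg lam z (u H k) (w k))) atTop (𝓝 0) := by
      have h0 : (0 : ℝ) = ∑ k : κ, (0 + 0) := by simp
      rw [h0]
      refine tendsto_finsetSum _ fun k _ => (hT0 k).add ?_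
      exact chg_tendsto h z (fun H => u H k) (w k) (hw k) (hu k) ((hpos k).mono fun _ h => h.le)
    have h2 := equi' (ι := ι) hρ hS (PS z) (fun r => F (fun k => gY lam z (w k) r))
    have h3 : (fun H : ℕ => SA (S H) x (fun c : ι → ℤ => F (fun k => gY lam z (w k) (redS (PS z) c)))) =
        fun H : ℕ => SA (S H) x (fun c : ι → ℤ => F (fun k => ∑ p ∈ PR z, lam c p (w k))) := by
      funext H
      congr 1
      funext c
      congr 1
      funext k
      exact gY_redS h z (w k) c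
    rw [h3] at h2
    have h4 : (∫ ω, F (fun k => gY lam z (w k) ((PS z).restrict ω)) ∂(PP ι)) =
        ∫ ω, F (fun k => Y lam z (w k) ω) ∂(PP ι) := by
      congr 1
      funext ω
      congr 1
      funext k
      exact (Y_eq z (w k) ω).symm
    rw [h4] at h2
    have h5 := (h2.sub_const (∫ ω, F (fun k => Y lam z (w k) ω) ∂(PP ι))).abs
    rw [sub_self, abs_zero] at h5
    have h6 := (h1.const_mul (L : ℝ)).add h5
    simpa using h6
  have hc := int_close w Z hZm hZi z _ (fun k => hZ k z hz1) F hF L hL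
  have hev := ((hcmp z hz1).and (hR.eventually_lt_const (half_pos hη)))
  obtain ⟨H0, hH0⟩ := eventually_atTop.mp hev
  refine ⟨H0, fun H hH => ?_⟩
  obtain ⟨h1, h2⟩ := hH0 H hH.le
  rw [Real.dist_eq]
  have h3 : ∑ k : κ, (T H k + K5 ι A β * (z : ℝ) ^ (-(1 / 4) : ℝ) + chg lam z (u H k) (w k)) =
      ∑ k, (T H k + chg lam z (u H k) (w k)) + m * (K5 ι A β * (z : ℝ) ^ (-(1 / 4) : ℝ)) := by
    have : ∀ k : κ, T H k + K5 ι A β * (z : ℝ) ^ (-(1 / 4) : ℝ) + chg lam z (u H k) (w k) =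
        (T H k + chg lam z (u H k) (w k)) + K5 ι A β * (z : ℝ) ^ (-(1 / 4) : ℝ) := fun k => by ring
    rw [Finset.sum_congr rfl fun k _ => this k, Finset.sum_add_distrib, Finset.sum_const, nsmul_eq_mul,
      Finset.card_univ]
  rw [h3, mul_add] at h1
  have h4 := abs_sub_le (SA (S H) x (fun c : ι → ℤ => F (fun k => ∑' p : Nat.Primes, lam c p (u H k))))
    (SA (S H) x (fun c : ι → ℤ => F (fun k => ∑ p ∈ PR z, lam c p (w k)))) (∫ ω, F (fun k => Z k ω) ∂(PP ι))
  have h5 := abs_sub_le (SA (S H) x (fun c : ι → ℤ => F (fun k => ∑ p ∈ PR z, lam c p (w k))))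
    (∫ ω, F (fun k => Y lam z (w k) ω) ∂(PP ι)) (∫ ω, F (fun k => Z k ω) ∂(PP ι))
  linarith

end

end

end Pool.Agent.N666.TM
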