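import Pool.Agent.N666.TM.Crit
import Pool.Agent.Y226.ZR.Den

set_option autoImplicit false
set_option linter.unusedSectionVars false

/-!
# Polynomial conditions
-/

namespace Pool.Agent.N666.TM

open Finset Filter MvPolynomial Pool.Agent.Y722.HS Pool.Agent.Y722.LS

section
variable {ι : Type} [Fintype ι] [DecidableEq ι]

/-- the reduction of an integral polynomial -/
noncomputable abbrev mp (p : ℕ) (R : MvPolynomial ι ℤ) : MvPolynomial ι (ZMod p) :=
  R.map (Int.castRingHom (ZMod p))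

theorem eval_red (p : ℕ) (R : MvPolynomial ι ℤ) (c : ι → ℤ) :
    eval (red p c) (mp p R) = ((eval c R : ℤ) : ZMod p) := by
  rw [MvPolynomial.eval_map]
  exact (MvPolynomial.eval₂_comp (Int.castRingHom (ZMod p)) c R).symm

/-- the reduction modulo a large prime is not zero -/
theorem mp_ne {R : MvPolynomial ι ℤ} (hR : R ≠ 0) : ∃ T : ℕ, ∀ p : ℕ, T < p → mp p R ≠ 0 := by
  obtain ⟨m, hm⟩ := MvPolynomial.ne_zero_iff.1 hR
  refine ⟨(coeff m R).natAbs, fun p hp h => ?_⟩
  have h1 := congrArg (coeff m) h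
  rw [MvPolynomial.coeff_map, coeff_zero] at h1
  have h2 : (p : ℤ) ∣ coeff m R := (ZMod.intCast_zmod_eq_zero_iff_dvd _ _).1 h1
  have h3 := Nat.le_of_dvd (Int.natAbs_pos.2 hm) (Int.natCast_dvd.1 h2)
  omega

/-- the number of zeros modulo a prime -/
theorem zeros (R : MvPolynomial ι ℤ) (p : ℕ) [hp : Fact p.Prime] (hR : mp p R ≠ 0) :
    ({ρ : ι → ZMod p | eval ρ (mp p R) = 0}.ncard : ℝ) * p ≤
      R.totalDegree * (p : ℝ) ^ Fintype.card ι := by
  classical
  have h := Pool.Agent.Y226.ZR.sz_mod R p hR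
  have h2 : {ρ : ι → ZMod p | eval ρ (mp p R) = 0}.ncard ≤
      ((Finset.univ : Finset (Fin (Fintype.card ι) → ZMod p)).filter (fun f =>
      eval f (rename (Fintype.equivFin ι) (R.map (Int.castRingHom (ZMod p)))) = 0)).card := by
    rw [← Set.ncard_coe_finset]
    refine Set.ncard_le_ncard_of_injOn (fun ρ => ρ ∘ (Fintype.equivFin ι).symm) ?_ ?_
      (Finset.finite_toSet _)
    · intro ρ hρ
      simp only [Finset.coe_filter, Finset.mem_univ, true_and, Set.mem_ofPred_eq]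
      rw [MvPolynomial.eval_rename]
      have e : (ρ ∘ (Fintype.equivFin ι).symm) ∘ (Fintype.equivFin ι) = ρ := by
        funext i
        simp
      rw [e]
      exact hρ
    · intro ρ _ ρ' _ h
      funext i
      have := congrFun h (Fintype.equivFin ι i)
      simpa using this
  have h3 := (Nat.mul_le_mul_right p h2).trans h
  exact_mod_cast h3

/-- the density of the zeros modulo a prime -/
theorem dens_zeros (R : MvPolynomial ι ℤ) (p : ℕ) [hp : Fact p.Prime] (hR : mp p R ≠ 0) :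
    dens {ρ : ι → ZMod p | eval ρ (mp p R) = 0} ≤ R.totalDegree / p := by
  have hp0 : (0 : ℝ) < p := by exact_mod_cast hp.out.pos
  unfold dens
  rw [div_le_div_iff₀ (by positivity) hp0]
  exact zeros R p hR

/-- A nonzero integral polynomial does not vanish at almost all members of a well distributed sequence. -/
theorem poly_rare {S : ℕ → Finset ℕ} {x : ℕ → ι → ℤ} {κ : ℝ} (hκ : 0 < κ)
    (hw : ∃ N₀ : ℕ, ∀ N : ℕ, N₀ ≤ N → ∀ H : ℕ, (H : ℝ) ≤ (N : ℝ) ^ κ → Well (S N) x H)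
    {R : MvPolynomial ι ℤ} (hR : R ≠ 0) (ε : ℝ) (hε : 0 < ε) :
    ∃ N₀ : ℕ, ∀ N : ℕ, N₀ ≤ N →
      (((S N).filter fun n => eval (x n) R = 0).card : ℝ) ≤ ε * (S N).card := by
  classical
  obtain ⟨T, hT⟩ := mp_ne hR
  obtain ⟨p, hpT, hp⟩ := Nat.exists_infinite_primes (T + 1 + ⌈2 * R.totalDegree / ε⌉₊)
  have : Fact p.Prime := ⟨hp⟩
  have hp0 : (0 : ℝ) < p := by exact_mod_cast hp.pos
  have hd := dens_zeros R p (hT p (by omega))
  have h1 : (R.totalDegree : ℝ) / p ≤ ε / 2 := by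
    have h2 : (2 * R.totalDegree / ε : ℝ) ≤ p := by
      refine (Nat.le_ceil _).trans ?_
      exact_mod_cast (by omega : ⌈2 * (R.totalDegree : ℝ) / ε⌉₊ ≤ p)
    rw [div_le_iff₀ hε] at h2
    rw [div_le_iff₀ hp0]
    linarith
  obtain ⟨N₀, hN₀⟩ := rare hκ hw p hp.one_lt.le {ρ : ι → ZMod p | eval ρ (mp p R) = 0} (ε / 2)
    (hd.trans h1)
  refine ⟨N₀, fun N hN => ?_⟩
  have h2 := hN₀ N hN
  have h3 : 2 * (ε / 2) = ε := by ring
  rw [h3] at h2
  refine le_trans ?_ h2
  refine Nat.cast_le.2 (Finset.card_le_card fun n hn => ?_)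
  rw [Finset.mem_filter] at hn ⊢
  refine ⟨hn.1, ?_⟩
  show eval (red p (x n)) (mp p R) = 0
  rw [eval_red, hn.2, Int.cast_zero]

end

section
variable {J : Type} [Fintype J] [DecidableEq J]

/-- the distinguished coordinate vanishes and the polynomial in the others does not -/
def OmR (R : MvPolynomial J ℤ) (p : ℕ) : Set (Option J → ZMod p) :=
  {ρ | ρ none = 0 ∧ eval (fun j => ρ (some j)) (mp p R) ≠ 0}

theorem dens_OmR {R : MvPolynomial J ℤ} (hR : R ≠ 0) : ∃ T : ℕ, ∀ p : ℕ, p.Prime → T < p →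
    1 / 2 * (1 / (p : ℝ)) ≤ dens (OmR R p) := by
  classical
  obtain ⟨T, hT⟩ := mp_ne hR
  refine ⟨T + 2 * R.totalDegree, fun p hp hpT => ?_⟩
  have : Fact p.Prime := ⟨hp⟩
  have hp0 : (0 : ℝ) < p := by exact_mod_cast hp.pos
  have hz := zeros R p (hT p (by omega))
  have h1 : (OmR R p).ncard = {σ : J → ZMod p | eval σ (mp p R) ≠ 0}.ncard := by
    have e : OmR R p = (fun σ : J → ZMod p => (fun i : Option J => i.elim (0 : ZMod p) σ)) ''
        {σ : J → ZMod p | eval σ (mp p R) ≠ 0} := by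
      ext ρ
      constructor
      · rintro ⟨h1, h2⟩
        refine ⟨fun j => ρ (some j), h2, ?_⟩
        funext i
        cases i with
        | none => exact h1.symm
        | some j => rfl
      · rintro ⟨σ, h1, rfl⟩
        exact ⟨rfl, h1⟩
    rw [e]
    refine Set.ncard_image_of_injective _ fun σ σ' h => ?_
    funext j
    exact congrFun h (some j)
  have h2 : ({σ : J → ZMod p | eval σ (mp p R) ≠ 0}.ncard : ℝ) +
      ({σ : J → ZMod p | eval σ (mp p R) = 0}.ncard : ℝ) = (p : ℝ) ^ Fintype.card J := by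
    have h3 := Set.ncard_add_ncard_compl {σ : J → ZMod p | eval σ (mp p R) = 0}
    rw [Nat.card_eq_fintype_card, Fintype.card_fun, ZMod.card] at h3
    have e : {σ : J → ZMod p | eval σ (mp p R) = 0}ᶜ = {σ : J → ZMod p | eval σ (mp p R) ≠ 0} := rfl
    rw [e] at h3
    have h4 : (({σ : J → ZMod p | eval σ (mp p R) = 0}.ncard +
      {σ : J → ZMod p | eval σ (mp p R) ≠ 0}.ncard : ℕ) : ℝ) = ((p ^ Fintype.card J : ℕ) : ℝ) := by
      exact_mod_cast h3
    push_cast at h4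
    linarith
  have h5 : (R.totalDegree : ℝ) * 2 ≤ p := by
    exact_mod_cast (by omega : R.totalDegree * 2 ≤ p)
  have hpJ : (0 : ℝ) < (p : ℝ) ^ Fintype.card J := by positivity
  have h6 : ({σ : J → ZMod p | eval σ (mp p R) = 0}.ncard : ℝ) ≤ 1 / 2 * (p : ℝ) ^ Fintype.card J := by
    have h7 : ({σ : J → ZMod p | eval σ (mp p R) = 0}.ncard : ℝ) * p ≤
        (1 / 2 * (p : ℝ) ^ Fintype.card J) * p := by nlinarith
    exact le_of_mul_le_mul_right h7 hp0
  have h8 : (1 / 2 : ℝ) ≤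
      ({σ : J → ZMod p | eval σ (mp p R) ≠ 0}.ncard : ℝ) / (p : ℝ) ^ Fintype.card J := by
    rw [le_div_iff₀ hpJ]
    linarith
  unfold dens
  rw [h1]
  calc 1 / 2 * (1 / (p : ℝ)) ≤
      ({σ : J → ZMod p | eval σ (mp p R) ≠ 0}.ncard : ℝ) / (p : ℝ) ^ Fintype.card J * (1 / (p : ℝ)) :=
        mul_le_mul_of_nonneg_right h8 (by positivity)
    _ = _ := by
        rw [Fintype.card_option, pow_succ]
        field_simp

/-- **The sieve for a multiplier and a polynomial condition.** Almost all members of a well distributed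
sequence have a prime `p > T₀` which divides the distinguished coordinate but not the value of the
polynomial at the others. -/
theorem mult_poly {S : ℕ → Finset ℕ} {x : ℕ → Option J → ℤ} {κ : ℝ} (hκ : 0 < κ)
    (hw : ∃ N₀ : ℕ, ∀ N : ℕ, N₀ ≤ N → ∀ H : ℕ, (H : ℝ) ≤ (N : ℝ) ^ κ → Well (S N) x H)
    {R : MvPolynomial J ℤ} (hR : R ≠ 0) (T₀ : ℕ) (ε : ℝ) (hε : 0 < ε) :
    ∃ T' N₀ : ℕ, ∀ N : ℕ, N₀ ≤ N →
      ({n : ℕ | n ∈ S N ∧ ¬ (x n none ≠ 0 ∧ ∃ p : ℕ, p.Prime ∧ T₀ < p ∧ p ≤ T' ∧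
        (p : ℤ) ∣ x n none ∧ ¬ (p : ℤ) ∣ eval (fun j => x n (some j)) R)}.ncard : ℝ) ≤
        ε * (S N).card := by
  classical
  obtain ⟨T, hT⟩ := dens_OmR hR
  have hdiv : ¬ Summable (fun p : ℕ => if p.Prime then 1 / 2 * (1 / (p : ℝ)) else 0) := by
    intro h
    apply not_summable_one_div_on_primes
    refine (h.mul_left 2).congr fun p => ?_
    by_cases hp : p.Prime
    · simp [Set.indicator, hp]
    · simp [Set.indicator, hp]
  obtain ⟨T', N₁, h₁⟩ := crit hκ hw (fun p => p) (fun p hp => hp.one_lt.le)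
    (fun p p' hp hp' hne => (Nat.coprime_primes hp hp').2 hne) (fun p => OmR R p) (max T T₀)
    (fun p => 1 / 2 * (1 / (p : ℝ))) (fun p => by positivity) hdiv
    (fun p hp hpT => hT p hp (lt_of_le_of_lt (le_max_left _ _) hpT)) (ε / 2) (by linarith)
  obtain ⟨N₂, h₂⟩ := poly_rare hκ hw (R := (X none : MvPolynomial (Option J) ℤ)) (X_ne_zero _) (ε / 2)
    (by linarith)
  refine ⟨T', max N₁ N₂, fun N hN => ?_⟩
  have g₁ := h₁ N ((le_max_left _ _).trans hN)
  have g₂ := h₂ N ((le_max_right _ _).trans hN)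
  have hsub : {n : ℕ | n ∈ S N ∧ ¬ (x n none ≠ 0 ∧ ∃ p : ℕ, p.Prime ∧ T₀ < p ∧ p ≤ T' ∧
        (p : ℤ) ∣ x n none ∧ ¬ (p : ℤ) ∣ eval (fun j => x n (some j)) R)} ⊆
      ((((S N).filter fun n => ∀ p, p.Prime → max T T₀ < p → p ≤ T' → red p (x n) ∉ OmR R p) ∪
        ((S N).filter fun n => eval (x n) (X none : MvPolynomial (Option J) ℤ) = 0) : Finset ℕ) :
        Set ℕ) := by
    rintro n ⟨hn, hn'⟩
    rw [Finset.mem_coe, Finset.mem_union, Finset.mem_filter, Finset.mem_filter]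
    by_cases h0 : x n none = 0
    · right
      exact ⟨hn, by rw [eval_X, h0]⟩
    · left
      refine ⟨hn, fun p hp hpT hpT' hmem => hn' ⟨h0, p, hp, lt_of_le_of_lt (le_max_right _ _) hpT,
        hpT', ?_, ?_⟩⟩
      · have := hmem.1
        exact (ZMod.intCast_zmod_eq_zero_iff_dvd _ _).1 this
      · intro hdvd
        apply hmem.2
        have h3 := eval_red p R (fun j => x n (some j))
        have h4 : (fun j => red p (x n) (some j)) = red p (fun j => x n (some j)) := rfl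
        rw [h4, h3]
        exact (ZMod.intCast_zmod_eq_zero_iff_dvd _ _).2 hdvd
  have h5 := Set.ncard_le_ncard hsub (Finset.finite_toSet _)
  rw [Set.ncard_coe_finset] at h5
  have h6 := h5.trans (Finset.card_union_le _ _)
  have h7 : ({n : ℕ | n ∈ S N ∧ ¬ (x n none ≠ 0 ∧ ∃ p : ℕ, p.Prime ∧ T₀ < p ∧ p ≤ T' ∧
        (p : ℤ) ∣ x n none ∧ ¬ (p : ℤ) ∣ eval (fun j => x n (some j)) R)}.ncard : ℝ) ≤
      (((S N).filter fun n => ∀ p, p.Prime → max T T₀ < p → p ≤ T' → red p (x n) ∉ OmR R p).card : ℝ) +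
      (((S N).filter fun n => eval (x n) (X none : MvPolynomial (Option J) ℤ) = 0).card : ℝ) := by
    exact_mod_cast h6
  linarith

end

end Pool.Agent.N666.TM
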