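import Pool.Agent.N666.TM.Law

set_option autoImplicit false
set_option linter.unusedSectionVars false

/-! # The limit law along thin sequences for bounded continuous functions and for Borel sets -/

namespace Pool.Agent.N666.TM

open Finset MeasureTheory Filter Topology
open Pool.Agent.Y722.HS Pool.Agent.Y722.LS Pool.Agent.N534.LF Pool.Agent.N534.TL
open Pool.Agent.N534.LL (K5 Sys Y PP exists_Z tendsto_rpow_quarter)

section
variable {ι : Type} [Fintype ι] [DecidableEq ι] [Nonempty ι]
variable {A β : ℝ} {N B : ∀ p : ℕ, (ι → ZMod p) → ℝ} {lam : (ι → ℤ) → ℕ → ℂ → ℂ}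

/-- the law of a function on a finite set -/
noncomputable def lawS {E : Type} [MeasurableSpace E] (s : Finset ℕ) (X : ℕ → E) : Measure E :=
  ((s.card : ENNReal))⁻¹ • ∑ n ∈ s, Measure.dirac (X n)

theorem lawS_apply {E : Type} [MeasurableSpace E] (s : Finset ℕ) (X : ℕ → E) (T : Set E)
    (hT : MeasurableSet T) : lawS s X T = ((s.card : ENNReal))⁻¹ * (open Classical in
      (s.filter (fun n => X n ∈ T)).card : ENNReal) := by
  classical
  unfold lawS
  rw [Measure.smul_apply, Measure.finsetSum_apply, smul_eq_mul]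
  congr 1
  have h1 : ∀ n ∈ s, (Measure.dirac (X n)) T = if X n ∈ T then (1 : ENNReal) else 0 := by
    intro n _
    rw [Measure.dirac_apply' _ hT, Set.indicator_apply]
    rfl
  rw [Finset.sum_congr rfl h1, Finset.sum_ite, Finset.sum_const_zero, add_zero, Finset.sum_const, nsmul_eq_mul,
    mul_one]

theorem lawS_prob {E : Type} [MeasurableSpace E] (s : Finset ℕ) (hs : s.card ≠ 0) (X : ℕ → E) :
    IsProbabilityMeasure (lawS s X) := by
  refine ⟨?_⟩
  rw [lawS_apply s X _ MeasurableSet.univ]
  simp only [Set.mem_univ, Finset.filter_true]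
  exact ENNReal.inv_mul_cancel (by exact_mod_cast hs) (ENNReal.natCast_ne_top _)

theorem integral_lawS {E : Type} [MeasurableSpace E] [TopologicalSpace E] [BorelSpace E] (s : Finset ℕ)
    (X : ℕ → E) (F : E → ℝ) (hF : StronglyMeasurable F) :
    ∫ y, F y ∂(lawS s X) = (∑ n ∈ s, F (X n)) / s.card := by
  unfold lawS
  rw [integral_smul_measure, integral_finsetSum_measure fun n _ => integrable_dirac' hF (by simp)]
  have h1 : ∀ n ∈ s, ∫ y, F y ∂(Measure.dirac (X n)) = F (X n) := by
    intro n _
    exact integral_dirac' F (X n) hF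
  rw [Finset.sum_congr rfl h1, smul_eq_mul]
  have h2 : ((s.card : ENNReal))⁻¹.toReal = ((s.card : ℝ))⁻¹ := by
    rw [ENNReal.toReal_inv, ENNReal.toReal_natCast]
  rw [h2]
  ring

/-- the set, made nonempty -/
noncomputable def fixS (S : ℕ → Finset ℕ) (n : ℕ) : Finset ℕ := if (S n).card = 0 then {0} else S n

theorem fixS_ne (S : ℕ → Finset ℕ) (n : ℕ) : (fixS S n).card ≠ 0 := by
  unfold fixS
  split_ifs with h
  · simp
  · exact h

theorem fixS_ev {S : ℕ → Finset ℕ} {x : ℕ → ι → ℤ} {ρ : ℝ} (hρ : 0 < ρ) (hS : WellSeq S x ρ) :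
    ∀ᶠ n in atTop, fixS S n = S n := by
  filter_upwards [well_ev hρ hS 0] with n hn
  unfold fixS
  rw [if_neg hn.pos.ne']

/-- **The limit law along every well distributed sequence.** -/
theorem lawT (h : Sys A β N B lam) {κ : Type} [Fintype κ] (w : κ → ℂ) (hw : ∀ k, 0 ≤ (w k).re) :
    ∃ Z : κ → (∀ p : Nat.Primes, ι → ZMod (p : ℕ)) → ℂ,
      (∀ k, Measurable (Z k)) ∧ (∀ k, Integrable (Z k) (PP ι)) ∧
      (∀ k, Tendsto (fun z : ℕ => ∫ ω, ‖Y lam z (w k) ω - Z k ω‖ ∂(PP ι)) atTop (𝓝 0)) ∧
      ∀ (S : ℕ → Finset ℕ) (x : ℕ → ι → ℤ) (ρ : ℝ), 0 < ρ → WellSeq S x ρ →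
      ∀ u : ℕ → κ → ℂ, (∀ k, Tendsto (fun H => u H k) atTop (𝓝 (w k))) →
        (∀ k, Tendsto (fun H : ℕ => (u H k).re * Real.log H) atTop atTop) →
        ∀ X : ℕ → ℕ → κ → ℂ, (∀ᶠ H in atTop, ∀ n ∈ S H, ∀ k,
          X H n k = Complex.exp (∑' p : Nat.Primes, lam (x n) p (u H k))) →
        (∀ F : (κ → ℂ) → ℝ, Continuous F → (∃ C : ℝ, ∀ y, |F y| ≤ C) →
          Tendsto (fun H : ℕ => (∑ n ∈ S H, F (X H n)) / (S H).card) atTop
            (𝓝 (∫ ω, F (fun k => Complex.exp (Z k ω)) ∂(PP ι)))) ∧
        (∀ E : Set (κ → ℂ), MeasurableSet E →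
          (PP ι) {ω | (fun k => Complex.exp (Z k ω)) ∈ frontier E} = 0 →
          Tendsto (fun H : ℕ => (open Classical in ((S H).filter (fun n => X H n ∈ E)).card : ℝ) /
            (S H).card) atTop
            (𝓝 ((PP ι).real {ω | (fun k => Complex.exp (Z k ω)) ∈ E}))) := by
  classical
  choose Z hZm hZi hZ using fun k => exists_Z h (w k) (hw k)
  refine ⟨Z, hZm, hZi, fun k => ?_, ?_⟩
  · have h1 : Tendsto (fun z : ℕ => K5 ι A β * (z : ℝ) ^ (-(1 / 4) : ℝ)) atTop (𝓝 0) := by
      simpa using tendsto_rpow_quarter.const_mul (K5 ι A β)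
    refine squeeze_zero' (Eventually.of_forall fun z => integral_nonneg fun _ => norm_nonneg _) ?_ h1
    filter_upwards [eventually_ge_atTop 1] with z hz
    exact hZ k z hz
  · intro S x ρ hρ hS u hu hul X hX
    have hfix := fixS_ev hρ hS
    have hexp : Continuous (fun x : κ → ℂ => fun k => Complex.exp (x k)) :=
      continuous_pi fun k => Complex.continuous_exp.comp (continuous_apply k)
    have hZM : Measurable (fun ω (k : κ) => Z k ω) := measurable_pi_lambda _ hZm
    have hEM : Measurable (fun ω (k : κ) => Complex.exp (Z k ω)) := hexp.measurable.comp hZM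
    -- weak convergence of the laws of the logarithms
    set μs : ℕ → ProbabilityMeasure (κ → ℂ) := fun H =>
      ⟨lawS (fixS S H) (fun n => fun k => ∑' p : Nat.Primes, lam (x n) p (u H k)),
        lawS_prob _ (fixS_ne S H) _⟩ with hμs
    have hpm : IsProbabilityMeasure ((PP ι).map (fun ω (k : κ) => Z k ω)) :=
      Measure.isProbabilityMeasure_map hZM.aemeasurable
    set μ : ProbabilityMeasure (κ → ℂ) := ⟨(PP ι).map (fun ω (k : κ) => Z k ω), hpm⟩ with hμ
    have hconv : Tendsto μs atTop (𝓝 μ) := by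
      rw [tendsto_iff_forall_lipschitz_integral_tendsto]
      rintro F hF ⟨L, hL⟩
      have h1 := lip_law hρ hS h w hw Z hZm hZi hZ u hu hul F hF L hL
      have h2 : ∀ H : ℕ, ∫ y, F y ∂(μs H : Measure (κ → ℂ)) =
          (∑ n ∈ fixS S H, F (fun k => ∑' p : Nat.Primes, lam (x n) p (u H k))) / (fixS S H).card := fun H =>
        integral_lawS _ _ F hL.continuous.stronglyMeasurable
      have h3 : ∫ y, F y ∂(μ : Measure (κ → ℂ)) = ∫ ω, F (fun k => Z k ω) ∂(PP ι) :=
        integral_map hZM.aemeasurable hL.continuous.aestronglyMeasurable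
      rw [h3]
      refine h1.congr' ?_
      filter_upwards [hfix] with H hH
      rw [h2, hH]
      rfl
    -- weak convergence of the laws of the exponentials
    have hexpm : Measurable (fun x : κ → ℂ => fun k => Complex.exp (x k)) := hexp.measurable
    have hconv2 : Tendsto (fun H => (μs H).map hexpm.aemeasurable) atTop (𝓝 (μ.map hexpm.aemeasurable)) :=
      ProbabilityMeasure.tendsto_map_of_tendsto_of_continuous _ _ hconv hexp
    have hmapμ : ((μ.map hexpm.aemeasurable : ProbabilityMeasure (κ → ℂ)) : Measure (κ → ℂ)) =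
        (PP ι).map (fun ω (k : κ) => Complex.exp (Z k ω)) := by
      rw [ProbabilityMeasure.toMeasure_map]
      exact Measure.map_map hexpm hZM
    refine ⟨fun F hF hFb => ?_, fun E hE hEf => ?_⟩
    · obtain ⟨C, hC⟩ := hFb
      let F' : BoundedContinuousFunction (κ → ℂ) ℝ :=
        BoundedContinuousFunction.ofNormedAddCommGroup (fun x => F (fun k => Complex.exp (x k)))
          (hF.comp hexp) C (fun x => by rw [Real.norm_eq_abs]; exact hC _)
      have h1 := (ProbabilityMeasure.tendsto_iff_forall_integral_tendsto.mp hconv) F'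
      have h2 : ∀ H : ℕ, ∫ y, F' y ∂(μs H : Measure (κ → ℂ)) =
          (∑ n ∈ fixS S H, F (fun k => Complex.exp (∑' p : Nat.Primes, lam (x n) p (u H k)))) /
            (fixS S H).card := fun H =>
        integral_lawS _ _ F' F'.continuous.stronglyMeasurable
      have h3 : ∫ y, F' y ∂(μ : Measure (κ → ℂ)) = ∫ ω, F (fun k => Complex.exp (Z k ω)) ∂(PP ι) :=
        integral_map hZM.aemeasurable F'.continuous.aestronglyMeasurable
      rw [h3] at h1
      simp only [h2] at h1
      refine h1.congr' ?_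
      filter_upwards [hX, hfix] with H hXH hH
      rw [hH]
      congr 1
      refine Finset.sum_congr rfl fun n hn => ?_
      have h4 : X H n = (fun k => Complex.exp (∑' p : Nat.Primes, lam (x n) p (u H k))) :=
        funext fun k => hXH n hn k
      rw [h4]
    · have h1 : ((μ.map hexpm.aemeasurable : ProbabilityMeasure (κ → ℂ)) : Measure (κ → ℂ)) (frontier E) = 0 := by
        rw [hmapμ, Measure.map_apply hEM isClosed_frontier.measurableSet]
        exact hEf
      have h2 := ProbabilityMeasure.tendsto_measure_of_null_frontier_of_tendsto' hconv2 h1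
      rw [hmapμ, Measure.map_apply hEM hE] at h2
      have h3 := (ENNReal.tendsto_toReal (measure_ne_top (PP ι) _)).comp h2
      refine h3.congr' ?_
      filter_upwards [hX, hfix] with H hXH hH
      rw [Function.comp_apply, ProbabilityMeasure.toMeasure_map, Measure.map_apply hexpm hE]
      change (lawS (fixS S H) (fun n => fun k => ∑' p : Nat.Primes, lam (x n) p (u H k))
        ((fun x : κ → ℂ => fun k => Complex.exp (x k)) ⁻¹' E)).toReal = _
      rw [hH, lawS_apply _ _ _ (hexpm hE), ENNReal.toReal_mul, ENNReal.toReal_inv, ENNReal.toReal_natCast,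
        ENNReal.toReal_natCast, mul_comm, div_eq_mul_inv]
      congr 2
      congr 1
      refine Finset.filter_congr fun n hn => ?_
      have h4 : X H n = (fun k => Complex.exp (∑' p : Nat.Primes, lam (x n) p (u H k))) :=
        funext fun k => hXH n hn k
      rw [h4]
      rfl

end

end Pool.Agent.N666.TM
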