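import Pool.Agent.N666.TM.Mean

set_option autoImplicit false
set_option linter.unusedSectionVars false

/-! # Second moments of sums over primes over a well distributed family of vectors

The proofs are those of `Pool.Agent.Y722.LS.Abs` for the mean over a box. -/

namespace Pool.Agent.N666.TM

open Finset Pool.Agent.Y722.HS Pool.Agent.Y722.LS

section
variable {ι : Type} [Fintype ι] [DecidableEq ι] [Nonempty ι] {A : ℝ} {N B : ∀ p : ℕ, (ι → ZMod p) → ℝ}
  {s : Finset ℕ} {x : ℕ → ι → ℤ} {H : ℕ}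

omit [DecidableEq ι] [Nonempty ι] in
theorem SA_nonneg (f : (ι → ℤ) → ℝ) (hf : ∀ c, 0 ≤ f c) : 0 ≤ SA s x f := by
  unfold SA
  have : 0 ≤ ∑ n ∈ s, f (x n) := Finset.sum_nonneg fun n _ => hf _
  positivity

theorem SA_sq (h : Fam A N B) (hws : Well s x H) (p : ℕ) [Fact p.Prime] (hp : p ≤ 2 * H + 1) :
    SA s x (fun c : ι → ℤ => N p (red p c) ^ 2) ≤ 2 ^ Fintype.card ι * (A / (p : ℝ) ^ 2) := by
  refine (SA_le hws p hp (fun c => N p c ^ 2) (fun c => sq_nonneg _)).trans ?_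
  exact mul_le_mul_of_nonneg_left (h.sq p) (by positivity)

theorem SA_mul (h : Fam A N B) (hws : Well s x H) (p q : ℕ) [hp : Fact p.Prime]
    [hq : Fact q.Prime] (hpq : p ≠ q) (hH : p * q ≤ 2 * H + 1) :
    |SA s x (fun c : ι → ℤ => N p (red p c) * N q (red q c))| ≤
      A / (p : ℝ) ^ 2 * (A / (q : ℝ) ^ 2) + 2 ^ Fintype.card ι * A ^ 2 / (2 * H + 1) := by
  have hp0 := p_pos (p := p)
  have hq0 := p_pos (p := q)
  have hA := h.A0
  have h1 := SA_two' (ι := ι) hws p q ((Nat.coprime_primes hp.out hq.out).mpr hpq) hH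
    (fun c => N p c) (fun c => N q c)
  have h2 : |EM p (fun c : ι → ZMod p => N p c) * EM q (fun c : ι → ZMod q => N q c)| ≤
      A / (p : ℝ) ^ 2 * (A / (q : ℝ) ^ 2) := by
    rw [abs_mul]
    exact mul_le_mul (h.mean p) (h.mean q) (abs_nonneg _) (by positivity)
  have h3 : EM p (fun c : ι → ZMod p => |N p c|) *
      EM q (fun c : ι → ZMod q => |N q c|) ≤ A / (p : ℝ) * (A / (q : ℝ)) := by
    refine mul_le_mul (h.abs p) (h.abs q) ?_ (by positivity)
    exact EM_nonneg q _ fun c => abs_nonneg _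
  have h4 : 2 ^ Fintype.card ι * ((p : ℝ) * q / (2 * H + 1)) *
      (EM p (fun c : ι → ZMod p => |N p c|) *
        EM q (fun c : ι → ZMod q => |N q c|)) ≤ 2 ^ Fintype.card ι * A ^ 2 / (2 * H + 1) := by
    calc _ ≤ 2 ^ Fintype.card ι * ((p : ℝ) * q / (2 * H + 1)) *
          (A / (p : ℝ) * (A / (q : ℝ))) := by gcongr
      _ = _ := by field_simp
  have h5 := abs_sub_abs_le_abs_sub
    (SA s x (fun c : ι → ℤ => N p (red p c) * N q (red q c)))
    (EM p (fun c : ι → ZMod p => N p c) * EM q (fun c : ι → ZMod q => N q c))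
  linarith

theorem SA_WW_sq (h : Fam A N B) (hws : Well s x H) (y : ℕ) (hy : y ^ 4 ≤ H) (w : ℕ → ℝ)
    (hw : ∀ p ∈ PR y, |w p| ≤ 4 * (p : ℝ) ^ ((1 : ℝ) / 4)) :
    SA s x (fun c : ι → ℤ => WW N y w c ^ 2) ≤ K1 ι A := by
  have hA := h.A0
  have hyH : y * y ≤ H := by
    rcases Nat.eq_zero_or_pos y with h0 | h0
    · simp [h0]
    · calc y * y = y ^ 2 := by ring
        _ ≤ y ^ 4 := Nat.pow_le_pow_right h0 (by norm_num)
        _ ≤ H := hy
  have hpqH : ∀ p ∈ PR y, ∀ q ∈ PR y, p * q ≤ 2 * H + 1 := by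
    intro p hp q hq
    have := Nat.mul_le_mul (mem_PR.mp hp).1 (mem_PR.mp hq).1
    omega
  have hpH : ∀ p ∈ PR y, p ≤ 2 * H + 1 := by
    intro p hp
    have h1 := hpqH p hp p hp
    have h2 : p ≤ p * p := Nat.le_mul_self p
    omega
  have h1 : ∀ c : ι → ℤ, WW N y w c ^ 2 = ∑ p ∈ PR y, ∑ q ∈ PR y,
      (w p * w q) * (N p (red p c) * N q (red q c)) := by
    intro c
    rw [WW, pow_two, Finset.sum_mul_sum]
    refine Finset.sum_congr rfl fun p _ => Finset.sum_congr rfl fun q _ => by ring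
  simp only [h1]
  rw [SA_sum]
  simp only [SA_sum, SA_mulc]
  set Q : ℝ := 2 ^ Fintype.card ι * A ^ 2 / (2 * H + 1) with hQ
  have hQ0 : 0 ≤ Q := by positivity
  have h2 : ∀ p ∈ PR y, ∀ q ∈ PR y,
      (w p * w q) * SA s x (fun c : ι → ℤ => N p (red p c) * N q (red q c)) ≤
      (if q = p then 16 * 2 ^ Fintype.card ι * A * (1 / (p : ℝ) ^ ((3 : ℝ) / 2)) else 0) +
        (4 * A * (1 / (p : ℝ) ^ ((3 : ℝ) / 2))) * (4 * A * (1 / (q : ℝ) ^ ((3 : ℝ) / 2))) +
        |w p| * |w q| * Q := by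
    intro p hp q hq
    have hpp := (mem_PR.mp hp).2
    have hqq := (mem_PR.mp hq).2
    have := Fact.mk hpp
    have := Fact.mk hqq
    have hp0 := p_pos (p := p)
    have hq0 := p_pos (p := q)
    have hp1 : (1 : ℝ) ≤ p := by exact_mod_cast hpp.one_lt.le
    have hq1 : (1 : ℝ) ≤ q := by exact_mod_cast hqq.one_lt.le
    by_cases hpq : q = p
    · subst hpq
      rw [if_pos rfl]
      have h3 := SA_sq h hws q (hpH q hq)
      have h4 : (fun c : ι → ℤ => N q (red q c) * N q (red q c)) =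
          fun c : ι → ℤ => N q (red q c) ^ 2 := by funext c; ring
      rw [h4, ← pow_two, ← sq_abs]
      have h5 : |w q| ^ 2 ≤ 16 * (q : ℝ) ^ ((1 : ℝ) / 2) := by
        have h6 := hw q hq
        calc |w q| ^ 2 ≤ (4 * (q : ℝ) ^ ((1 : ℝ) / 4)) ^ 2 := by gcongr
          _ = 16 * (q : ℝ) ^ ((1 : ℝ) / 2) := by
              rw [mul_pow, ← Real.rpow_natCast ((q : ℝ) ^ ((1 : ℝ) / 4)) 2, ← Real.rpow_mul hq0.le]
              norm_num
      have h6 : |w q| ^ 2 * SA s x (fun c : ι → ℤ => N q (red q c) ^ 2) ≤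
          16 * (q : ℝ) ^ ((1 : ℝ) / 2) * (2 ^ Fintype.card ι * (A / (q : ℝ) ^ 2)) := by
        refine mul_le_mul h5 h3 ?_ (by positivity)
        exact SA_nonneg _ fun c => by positivity
      have h7 : 16 * (q : ℝ) ^ ((1 : ℝ) / 2) * (2 ^ Fintype.card ι * (A / (q : ℝ) ^ 2)) =
          16 * 2 ^ Fintype.card ι * A * (1 / (q : ℝ) ^ ((3 : ℝ) / 2)) := by
        have h8 : (q : ℝ) ^ 2 = (q : ℝ) ^ ((1 : ℝ) / 2) * (q : ℝ) ^ ((3 : ℝ) / 2) := by
          rw [← Real.rpow_add hq0, ← Real.rpow_natCast]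
          norm_num
        rw [h8]
        field_simp
      have h9 : 0 ≤ |w q| * |w q| * Q := by positivity
      have h10 : 0 ≤ (4 * A * (1 / (q : ℝ) ^ ((3 : ℝ) / 2))) *
          (4 * A * (1 / (q : ℝ) ^ ((3 : ℝ) / 2))) := by
        positivity
      linarith
    · rw [if_neg hpq, zero_add]
      have h3 := SA_mul h hws p q (fun h => hpq h.symm) (hpqH p hp q hq)
      rw [← hQ] at h3
      have h4 : (w p * w q) * SA s x (fun c : ι → ℤ => N p (red p c) * N q (red q c)) ≤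
          (|w p| * |w q|) * (A / (p : ℝ) ^ 2 * (A / (q : ℝ) ^ 2) + Q) := by
        refine (le_abs_self _).trans ?_
        rw [abs_mul, abs_mul]
        exact mul_le_mul_of_nonneg_left h3 (by positivity)
      have key : ∀ r : ℕ, r ∈ PR y →
          |w r| * (A / (r : ℝ) ^ 2) ≤ 4 * A * (1 / (r : ℝ) ^ ((3 : ℝ) / 2)) := by
        intro r hr
        have hr1 : (1 : ℝ) ≤ r := by exact_mod_cast (mem_PR.mp hr).2.one_lt.le
        have hr0 : (0 : ℝ) < r := by linarith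
        have h6 : (r : ℝ) ^ ((1 : ℝ) / 4) ≤ (r : ℝ) ^ ((1 : ℝ) / 2) :=
          Real.rpow_le_rpow_of_exponent_le hr1 (by norm_num)
        have h8 : (r : ℝ) ^ 2 = (r : ℝ) ^ ((1 : ℝ) / 2) * (r : ℝ) ^ ((3 : ℝ) / 2) := by
          rw [← Real.rpow_add hr0, ← Real.rpow_natCast]
          norm_num
        have h9 : |w r| ≤ 4 * (r : ℝ) ^ ((1 : ℝ) / 2) := (hw r hr).trans (by linarith)
        calc |w r| * (A / (r : ℝ) ^ 2) ≤ 4 * (r : ℝ) ^ ((1 : ℝ) / 2) * (A / (r : ℝ) ^ 2) := by gcongr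
          _ = _ := by rw [h8]; field_simp
      have h5 : (|w p| * (A / (p : ℝ) ^ 2)) * (|w q| * (A / (q : ℝ) ^ 2)) ≤
          (4 * A * (1 / (p : ℝ) ^ ((3 : ℝ) / 2))) * (4 * A * (1 / (q : ℝ) ^ ((3 : ℝ) / 2))) :=
        mul_le_mul (key p hp) (key q hq) (by positivity) (by positivity)
      calc _ ≤ _ := h4
        _ = (|w p| * (A / (p : ℝ) ^ 2)) * (|w q| * (A / (q : ℝ) ^ 2)) + |w p| * |w q| * Q := by ring
        _ ≤ _ := by linarith
  refine (Finset.sum_le_sum fun p hp => Finset.sum_le_sum fun q hq => h2 p hp q hq).trans ?_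
  simp only [Finset.sum_add_distrib]
  have t1 : ∑ p ∈ PR y, ∑ q ∈ PR y,
      (if q = p then 16 * 2 ^ Fintype.card ι * A * (1 / (p : ℝ) ^ ((3 : ℝ) / 2)) else 0) ≤
      16 * 2 ^ Fintype.card ι * A * SS := by
    have : ∑ p ∈ PR y, ∑ q ∈ PR y,
        (if q = p then 16 * 2 ^ Fintype.card ι * A * (1 / (p : ℝ) ^ ((3 : ℝ) / 2)) else 0) =
        16 * 2 ^ Fintype.card ι * A * ∑ p ∈ PR y, 1 / (p : ℝ) ^ ((3 : ℝ) / 2) := by
      rw [Finset.mul_sum]
      refine Finset.sum_congr rfl fun p hp => ?_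
      rw [Finset.sum_ite_eq' (PR y) p, if_pos hp]
    rw [this]
    exact mul_le_mul_of_nonneg_left (sum_le_SS _) (by positivity)
  have t2 : ∑ p ∈ PR y, ∑ q ∈ PR y,
      (4 * A * (1 / (p : ℝ) ^ ((3 : ℝ) / 2))) * (4 * A * (1 / (q : ℝ) ^ ((3 : ℝ) / 2))) ≤
      16 * A ^ 2 * SS ^ 2 := by
    rw [← Finset.sum_mul_sum, ← Finset.mul_sum]
    have h3 := sum_le_SS (PR y)
    have h4 : 0 ≤ ∑ p ∈ PR y, 1 / (p : ℝ) ^ ((3 : ℝ) / 2) := Finset.sum_nonneg fun _ _ => by positivity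
    have h5 := SS_nonneg
    calc _ ≤ 4 * A * SS * (4 * A * SS) := by gcongr
      _ = _ := by ring
  have t3 : ∑ p ∈ PR y, ∑ q ∈ PR y, |w p| * |w q| * Q ≤ 8 * 2 ^ Fintype.card ι * A ^ 2 := by
    simp only [← Finset.sum_mul]
    rw [← Finset.sum_mul_sum]
    have h3 := sum_weights y w hw
    have h4 : 0 ≤ ∑ p ∈ PR y, |w p| := Finset.sum_nonneg fun _ _ => abs_nonneg _
    have h5 : (∑ p ∈ PR y, |w p|) * ∑ p ∈ PR y, |w p| ≤ 16 * (H : ℝ) := by
      have h6 : ((y : ℝ)) ^ 4 ≤ H := by exact_mod_cast hy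
      calc _ ≤ (4 * (y : ℝ) ^ 2) * (4 * (y : ℝ) ^ 2) := by gcongr
        _ = 16 * (y : ℝ) ^ 4 := by ring
        _ ≤ _ := by linarith
    calc _ ≤ 16 * (H : ℝ) * Q := by gcongr
      _ = 8 * 2 ^ Fintype.card ι * A ^ 2 * (2 * (H : ℝ) / (2 * H + 1)) := by
          rw [hQ]; field_simp; ring
      _ ≤ 8 * 2 ^ Fintype.card ι * A ^ 2 * 1 := by
          gcongr
          rw [div_le_one (by positivity)]
          linarith
      _ = _ := mul_one _
  unfold K1
  linarith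

theorem SA_bb_sq (h : Fam A N B) (hws : Well s x H) {β : ℝ} (hβ : 0 ≤ β) (y : ℕ) (hy : y ^ 4 ≤ H) :
    SA s x (fun c : ι → ℤ => (∑ p ∈ PR y, bb N B β p (red p c)) ^ 2) ≤ K4 ι A β := by
  have hA := h.A0
  have hyH : y * y ≤ H := by
    rcases Nat.eq_zero_or_pos y with h0 | h0
    · simp [h0]
    · calc y * y = y ^ 2 := by ring
        _ ≤ y ^ 4 := Nat.pow_le_pow_right h0 (by norm_num)
        _ ≤ H := hy
  have hpqH : ∀ p ∈ PR y, ∀ q ∈ PR y, p * q ≤ 2 * H + 1 := by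
    intro p hp q hq
    have := Nat.mul_le_mul (mem_PR.mp hp).1 (mem_PR.mp hq).1
    omega
  have hpH : ∀ p ∈ PR y, p ≤ 2 * H + 1 := by
    intro p hp
    have h1 := hpqH p hp p hp
    have h2 : p ≤ p * p := Nat.le_mul_self p
    omega
  have h1 : ∀ c : ι → ℤ, (∑ p ∈ PR y, bb N B β p (red p c)) ^ 2 = ∑ p ∈ PR y, ∑ q ∈ PR y,
      (bb N B β p (red p c) * bb N B β q (red q c)) := by
    intro c
    rw [pow_two, Finset.sum_mul_sum]
  simp only [h1]
  rw [SA_sum]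
  simp only [SA_sum]
  have h2 : ∀ p ∈ PR y, ∀ q ∈ PR y,
      SA s x (fun c : ι → ℤ => bb N B β p (red p c) * bb N B β q (red q c)) ≤
      (if q = p then 2 ^ Fintype.card ι * (2 * (A + β ^ 2)) * (1 / (p : ℝ) ^ ((3 : ℝ) / 2)) else 0) +
        (1 + 2 ^ Fintype.card ι) * (((2 + β) * A * (1 / (p : ℝ) ^ ((3 : ℝ) / 2))) *
          ((2 + β) * A * (1 / (q : ℝ) ^ ((3 : ℝ) / 2)))) := by
    intro p hp q hq
    have hpp := (mem_PR.mp hp).2
    have hqq := (mem_PR.mp hq).2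
    have := Fact.mk hpp
    have := Fact.mk hqq
    have hp0 := p_pos (p := p)
    have hq0 := p_pos (p := q)
    by_cases hpq : q = p
    · subst hpq
      rw [if_pos rfl]
      have h4 : (fun c : ι → ℤ => bb N B β q (red q c) * bb N B β q (red q c)) =
          fun c : ι → ℤ => bb N B β q (red q c) ^ 2 := by funext c; ring
      have h3 := SA_le hws q (hpH q hq) (fun c => bb N B β q c ^ 2) (fun c => sq_nonneg _)
      rw [h4]
      have h5 := h.EM_bb_sq hβ q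
      have h6 : 2 ^ Fintype.card ι * EM q (fun c : ι → ZMod q => bb N B β q c ^ 2) ≤
          2 ^ Fintype.card ι * (2 * (A + β ^ 2) * (1 / (q : ℝ) ^ ((3 : ℝ) / 2))) := by gcongr
      have h10 : 0 ≤ (1 + 2 ^ Fintype.card ι) * (((2 + β) * A * (1 / (q : ℝ) ^ ((3 : ℝ) / 2))) *
          ((2 + β) * A * (1 / (q : ℝ) ^ ((3 : ℝ) / 2)))) := by positivity
      linarith
    · rw [if_neg hpq, zero_add]
      have h3 := SA_two' (ι := ι) hws p q
        ((Nat.coprime_primes hpp hqq).mpr fun h => hpq h.symm) (hpqH p hp q hq)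
        (fun c => bb N B β p c) (fun c => bb N B β q c)
      have hab : ∀ r : ℕ, (fun c : ι → ZMod r => |bb N B β r c|) = fun c => bb N B β r c := by
        intro r; funext c; exact abs_of_nonneg (h.bb_nonneg hβ r c)
      rw [hab, hab] at h3
      have h4 := (abs_sub_le_iff.mp h3).1
      have e1 := h.EM_bb hβ p
      have e2 := h.EM_bb hβ q
      have e3 : 0 ≤ EM p (fun c : ι → ZMod p => bb N B β p c) :=
        EM_nonneg p _ fun c => h.bb_nonneg hβ p c
      have e4 : 0 ≤ EM q (fun c : ι → ZMod q => bb N B β q c) :=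
        EM_nonneg q _ fun c => h.bb_nonneg hβ q c
      have h5 : (p : ℝ) * q / (2 * H + 1) ≤ 1 := by
        rw [div_le_one (by positivity)]
        exact_mod_cast hpqH p hp q hq
      have h6 : EM p (fun c : ι → ZMod p => bb N B β p c) *
          EM q (fun c : ι → ZMod q => bb N B β q c) ≤
          ((2 + β) * A * (1 / (p : ℝ) ^ ((3 : ℝ) / 2))) *
          ((2 + β) * A * (1 / (q : ℝ) ^ ((3 : ℝ) / 2))) := mul_le_mul e1 e2 e4 (by positivity)
      have h7 : 0 ≤ EM p (fun c : ι → ZMod p => bb N B β p c) *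
          EM q (fun c : ι → ZMod q => bb N B β q c) := mul_nonneg e3 e4
      calc _ ≤ EM p (fun c : ι → ZMod p => bb N B β p c) *
            EM q (fun c : ι → ZMod q => bb N B β q c) +
            2 ^ Fintype.card ι * ((p : ℝ) * q / (2 * H + 1)) *
            (EM p (fun c : ι → ZMod p => bb N B β p c) *
            EM q (fun c : ι → ZMod q => bb N B β q c)) := by linarith
        _ ≤ EM p (fun c : ι → ZMod p => bb N B β p c) *
            EM q (fun c : ι → ZMod q => bb N B β q c) +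
            2 ^ Fintype.card ι * 1 *
            (EM p (fun c : ι → ZMod p => bb N B β p c) *
            EM q (fun c : ι → ZMod q => bb N B β q c)) := by gcongr
        _ = (1 + 2 ^ Fintype.card ι) * (EM p (fun c : ι → ZMod p => bb N B β p c) *
            EM q (fun c : ι → ZMod q => bb N B β q c)) := by ring
        _ ≤ _ := by gcongr
  refine (Finset.sum_le_sum fun p hp => Finset.sum_le_sum fun q hq => h2 p hp q hq).trans ?_
  simp only [Finset.sum_add_distrib]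
  have t1 : ∑ p ∈ PR y, ∑ q ∈ PR y,
      (if q = p then 2 ^ Fintype.card ι * (2 * (A + β ^ 2)) * (1 / (p : ℝ) ^ ((3 : ℝ) / 2))
        else 0) ≤ 2 ^ Fintype.card ι * (2 * (A + β ^ 2)) * SS := by
    have : ∑ p ∈ PR y, ∑ q ∈ PR y,
        (if q = p then 2 ^ Fintype.card ι * (2 * (A + β ^ 2)) * (1 / (p : ℝ) ^ ((3 : ℝ) / 2))
          else 0) =
        2 ^ Fintype.card ι * (2 * (A + β ^ 2)) * ∑ p ∈ PR y, 1 / (p : ℝ) ^ ((3 : ℝ) / 2) := by
      rw [Finset.mul_sum]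
      refine Finset.sum_congr rfl fun p hp => ?_
      rw [Finset.sum_ite_eq' (PR y) p, if_pos hp]
    rw [this]
    exact mul_le_mul_of_nonneg_left (sum_le_SS _) (by positivity)
  have t2 : ∑ p ∈ PR y, ∑ q ∈ PR y,
      (1 + 2 ^ Fintype.card ι) * (((2 + β) * A * (1 / (p : ℝ) ^ ((3 : ℝ) / 2))) *
          ((2 + β) * A * (1 / (q : ℝ) ^ ((3 : ℝ) / 2)))) ≤
      (1 + 2 ^ Fintype.card ι) * ((2 + β) * A) ^ 2 * SS ^ 2 := by
    simp only [← Finset.mul_sum]
    rw [← Finset.sum_mul, ← Finset.mul_sum]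
    have h3 := sum_le_SS (PR y)
    have h4 : 0 ≤ ∑ p ∈ PR y, 1 / (p : ℝ) ^ ((3 : ℝ) / 2) := Finset.sum_nonneg fun _ _ => by positivity
    have h5 := SS_nonneg
    calc _ ≤ (1 + 2 ^ Fintype.card ι) * ((2 + β) * A * SS * ((2 + β) * A * SS)) := by gcongr
      _ = _ := by ring
  unfold K4
  linarith

end

end Pool.Agent.N666.TM
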