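import Pool.Agent.N666.TM.Thin
import Pool.Agent.N534.EC.Ser

set_option autoImplicit false
set_option linter.unusedSectionVars false

/-! # Elliptic curves with coefficients the integer parts of generalised polynomials -/

namespace Pool.Agent.N666.TM

open NumberField IsDedekindDomain Finset Filter
open Pool.Agent.H341R2.EC (trc IsMinAt finite_mem)
open Pool.Agent.Y722.HS (EM red)
open Pool.Agent.N534.EC
open Pool.Agent.N534.LF (Loc)
open Pool.Agent.N666.VE (primes)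

section
variable {K : Type} [Field K] [NumberField K]

/-- **The majorant for the thin family.** -/
theorem majorant_ec {I J : Type} [Fintype I] [Fintype J] [DecidableEq I] [DecidableEq J]
    (ω : Module.Basis I ℤ (𝓞 K)) (A B : MvPolynomial J (𝓞 K)) {s : ℕ → Finset ℕ}
    {x : ℕ → I ⊕ J → ℤ} {κ : ℝ} (hκ : 0 < κ)
    (hw : ∃ N₀ : ℕ, ∀ N : ℕ, N₀ ≤ N → ∀ H : ℕ, (H : ℝ) ≤ (N : ℝ) ^ κ → Well (s N) x H) :
    ∃ C : ℝ, 0 < C ∧ ∃ N₀ : ℕ, ∀ N : ℕ, N₀ ≤ N → ∀ T : ℝ, 0 ≤ T → ∃ M : (I ⊕ J → ℤ) → ℝ,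
      (∀ c, 0 ≤ M c) ∧ ∑ n ∈ s N, M (x n) ≤ C * (1 + T) * (s N).card ∧
      ∀ (c : I ⊕ J → ℤ) (V : HeightOneSpectrum (𝓞 K) → WeierstrassCurve (𝓞 K)),
        (∀ v, IsMinAt (crv ω A B c) v (V v)) → ∀ u : ℂ, 1 / Real.log N ≤ u.re →
        u.re ≤ 1 → |u.im| ≤ T → ‖∑' v : HeightOneSpectrum (𝓞 K), ll V u v‖ ^ 2 ≤ M c := by
  have : Nonempty I := by
    by_contra hI
    rw [not_nonempty_iff] at hI
    have h1 : (1 : 𝓞 K) = 0 := by
      have := ω.sum_repr (1 : 𝓞 K)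
      rw [← this]
      simp
    exact one_ne_zero h1
  obtain ⟨C, hC, N₀, h⟩ := thin_majorant (fam (trFam ω A B))
    (β := 200 * dK K) (by have := dK_nonneg (K := K); positivity) hκ hw
  refine ⟨C, hC, N₀ + 3, fun N hN T hT => ?_⟩
  obtain ⟨M, hM0, hM1, hM2⟩ := h N (by omega) T hT
  refine ⟨M, hM0, hM1, fun c V hV u h1 h2 h3 => ?_⟩
  have hlogH : 0 < Real.log N := Real.log_pos (by exact_mod_cast (by omega : 1 < N))
  have hu : 0 < u.re := lt_of_lt_of_le (by positivity) h1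
  rw [tsum_ll V hu]
  exact hM2 c (lamV V) (loc_two ω A B c V hV) u h1 h2 h3

end

end Pool.Agent.N666.TM
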