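import Pool.Agent.N666.TM.Abs
import Pool.Agent.N534.LF.Maj

set_option autoImplicit false
set_option linter.unusedSectionVars false

/-! # The majorant for a well distributed family of vectors

The proofs follow `Pool.Agent.N534.TL.Sup2` and `Pool.Agent.N534.LF.Maj` (mean over a box). -/

namespace Pool.Agent.N666.TM

open Finset MeasureTheory Pool.Agent.Y722.HS Pool.Agent.Y722.LS Pool.Agent.N534.TL Pool.Agent.N534.LF

section
variable {ι : Type} [Fintype ι] [DecidableEq ι] [Nonempty ι] {A β : ℝ} {N B : ∀ p : ℕ, (ι → ZMod p) → ℝ}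
  {s : Finset ℕ} {x : ℕ → ι → ℤ} {H : ℕ}

theorem SA_ZC (h : Fam A N B) (hws : Well s x H) (y : ℕ) (hy : y ^ 4 ≤ H) (u : ℂ)
    (hu : -(1 / 4) ≤ u.re) : SA s x (fun c : ι → ℤ => ‖ZC N y c u‖ ^ 2) ≤ 2 * K1 ι A := by
  simp only [ZC_sq]
  rw [SA_add]
  have h1 := SA_WW_sq h hws y hy (fun p => ((p : ℂ) ^ (-u)).re)
    fun p hp => (Complex.abs_re_le_norm _).trans (wt_norm y u hu p hp)
  have h2 := SA_WW_sq h hws y hy (fun p => ((p : ℂ) ^ (-u)).im)
    fun p hp => (Complex.abs_im_le_norm _).trans (wt_norm y u hu p hp)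
  linarith

theorem SA_G2 (h : Fam A N B) (hws : Well s x H) (y K : ℕ) (hy : y ^ 4 ≤ H) :
    SA s x (fun c : ι → ℤ => G2 N y K c) ≤ (2 * K + 1) * (4 * Real.pi * K1 ι A) := by
  unfold G2
  rw [SA_sum]
  have hcont : ∀ (k : ℤ) (c : ι → ℤ), Continuous fun θ : ℝ => ‖ZC N y c (circleMap (ctr k) (7 / 10) θ)‖ ^ 2 :=
    fun k c => ((ZC_diff y c).continuous.comp (continuous_circleMap _ _)).norm.pow 2
  have h1 : ∀ k ∈ Finset.Icc (-(K : ℤ)) K, SA s x (fun c : ι → ℤ => ∫ θ in (0 : ℝ)..2 * Real.pi,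
      ‖ZC N y c (circleMap (ctr k) (7 / 10) θ)‖ ^ 2) ≤ 4 * Real.pi * K1 ι A := by
    intro k _
    have h3 : SA s x (fun c : ι → ℤ => ∫ θ in (0 : ℝ)..2 * Real.pi,
        ‖ZC N y c (circleMap (ctr k) (7 / 10) θ)‖ ^ 2) =
        ∫ θ in (0 : ℝ)..2 * Real.pi, SA s x (fun c : ι → ℤ =>
          ‖ZC N y c (circleMap (ctr k) (7 / 10) θ)‖ ^ 2) := by
      unfold SA
      rw [intervalIntegral.integral_div, intervalIntegral.integral_finsetSum]
      intro c _
      exact (hcont k _).intervalIntegrable _ _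
    have hcont2 : Continuous fun θ : ℝ => SA s x (fun c : ι → ℤ =>
        ‖ZC N y c (circleMap (ctr k) (7 / 10) θ)‖ ^ 2) := by
      unfold SA
      exact (continuous_finsetSum _ fun c _ => hcont k _).div_const _
    rw [h3]
    calc _ ≤ ∫ θ in (0 : ℝ)..2 * Real.pi, 2 * K1 ι A := by
          apply intervalIntegral.integral_mono_on (by positivity) (hcont2.intervalIntegrable _ _)
            (by simp)
          intro θ _
          apply SA_ZC h hws y hy
          have h5 : ‖circleMap (ctr k) (7 / 10) θ - ctr k‖ = 7 / 10 := by simp [circleMap]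
          have h6 := (Complex.abs_re_le_norm (circleMap (ctr k) (7 / 10) θ - ctr k)).trans h5.le
          have h7 : (ctr k).re = 1 / 2 := by simp [ctr]
          rw [Complex.sub_re, h7] at h6
          have := (abs_le.mp h6).1
          linarith
      _ = _ := by
          rw [intervalIntegral.integral_const]
          simp only [sub_zero, smul_eq_mul]
          ring
  refine (Finset.sum_le_sum h1).trans ?_
  rw [Finset.sum_const, nsmul_eq_mul, Int.card_Icc]
  have h2 : ((K : ℤ) + 1 - -(K : ℤ)).toNat = 2 * K + 1 := by omega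
  rw [h2]
  push_cast
  exact le_rfl

/-- **The majorant.** -/
theorem majorant (hF : Fam A N B) (hβ : 0 ≤ β) {Λ : ℝ} (hΛ : 0 ≤ Λ) :
    ∃ C : ℝ, 0 < C ∧ ∀ (s : Finset ℕ) (x : ℕ → ι → ℤ) (H y : ℕ), Well s x H → 1 ≤ y → y ^ 4 ≤ H →
      ∀ T : ℝ, 0 ≤ T → ∃ M : (ι → ℤ) → ℝ,
      (∀ c, 0 ≤ M c) ∧ SA s x M ≤ C * (1 + T) ∧
      ∀ (c : ι → ℤ) (lam : ℕ → ℂ → ℂ), Loc β N B c lam → ∀ u : ℂ, 0 < u.re →
        1 ≤ Λ * (u.re * Real.log (y + 1)) →
        u.re ≤ 1 → |u.im| ≤ T → ‖∑' p : Nat.Primes, lam p u‖ ^ 2 ≤ M c := by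
  set K' : ℝ := β * SS + 16 * Λ * β with hK'
  have hSS := SS_nonneg
  have hK0 : 0 ≤ K' := by positivity
  have hA1 := hF.A0
  have hK1 : 0 ≤ K1 ι A := by
    unfold K1
    positivity
  have hK4 : 0 ≤ K4 ι A β :=
    le_trans (by unfold EB; positivity) (hF.EB_bb_sq hβ 0 0 (by norm_num))
  refine ⟨3 * (11 * (4 * Real.pi * K1 ι A)) + 3 * K4 ι A β + 3 * K' ^ 2 + 1, by positivity, ?_⟩
  intro s x H y hws hy1 hy4 T hT
  set k : ℕ := ⌈4 * T + 1⌉₊ with hk
  have hk1 : 4 * T + 1 ≤ k := Nat.le_ceil _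
  have hk2 : (k : ℝ) < 4 * T + 2 := by
    have := Nat.ceil_lt_add_one (a := 4 * T + 1) (by positivity)
    linarith
  refine ⟨fun c => 3 * G2 N y k c +
    3 * (∑ p ∈ PR y, bb N B β p (red p c)) ^ 2 + 3 * K' ^ 2, ?_, ?_, ?_⟩
  · intro c
    have := G2_nonneg (N := N) y k c
    positivity
  · rw [SA_add, SA_add, SA_const hws, SA_mulc, SA_mulc]
    have e1 := SA_G2 hF hws y k hy4
    have e2 := SA_bb_sq hF hws hβ y hy4
    have hpi := Real.pi_pos
    have e3 : (2 * (k : ℝ) + 1) * (4 * Real.pi * K1 ι A) ≤ (11 * (1 + T)) * (4 * Real.pi * K1 ι A) := by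
      apply mul_le_mul_of_nonneg_right _ (by positivity)
      linarith
    have e4 : 3 * K4 ι A β ≤ 3 * K4 ι A β * (1 + T) := le_mul_of_one_le_right (by positivity) (by linarith)
    have e5 : 3 * K' ^ 2 ≤ 3 * K' ^ 2 * (1 + T) := le_mul_of_one_le_right (by positivity) (by linarith)
    nlinarith
  · intro c lam hl u hεp hyε hε1 hτ
    have hlog : 0 < Real.log ((y : ℝ) + 1) := Real.log_pos (by
      have : (1 : ℝ) ≤ y := by exact_mod_cast hy1
      linarith)
    have h1 := hl.tail hβ hεp hε1 y hy1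
    have h16 : 16 / (u.re * Real.log (y + 1)) ≤ 16 * Λ := by
      rw [div_le_iff₀ (by positivity)]
      nlinarith
    have h1' : β * (16 / (u.re * Real.log (y + 1))) ≤ 16 * Λ * β := by
      rw [mul_comm (16 * Λ : ℝ)]
      exact mul_le_mul_of_nonneg_left h16 hβ
    have h3 := hl.zc hβ hεp.le y
    have h2 := ZC_le (N := N) y k c u.re u.im hεp.le hε1 (by linarith)
    rw [Complex.re_add_im] at h2
    set X := ‖∑' p : Nat.Primes, lam p u‖ with hX
    set z := ‖ZC N y c u‖ with hz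
    set w := ∑ p ∈ PR y, bb N B β p (red p c) with hw
    have hw0 : 0 ≤ w := Finset.sum_nonneg fun p _ => hF.bb_nonneg hβ p _
    have h6 : X ≤ z + w + K' := by
      have e0 : (∑' p : Nat.Primes, lam p u) = ((∑' p : Nat.Primes, lam p u) - ∑ p ∈ PR y, lam p u) +
          ((∑ p ∈ PR y, lam p u) - ZC N y c u) + ZC N y c u := by ring
      have i1 := norm_add_le (((∑' p : Nat.Primes, lam p u) - ∑ p ∈ PR y, lam p u) +
          ((∑ p ∈ PR y, lam p u) - ZC N y c u)) (ZC N y c u)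
      have i2 := norm_add_le ((∑' p : Nat.Primes, lam p u) - ∑ p ∈ PR y, lam p u)
          ((∑ p ∈ PR y, lam p u) - ZC N y c u)
      rw [← e0] at i1
      linarith
    have hX0 : 0 ≤ X := norm_nonneg _
    have h4 : X ^ 2 ≤ (z + w + K') ^ 2 := by gcongr
    have h5 : (z + w + K') ^ 2 ≤ 3 * z ^ 2 + 3 * w ^ 2 + 3 * K' ^ 2 := by
      nlinarith [sq_nonneg (z - w), sq_nonneg (z - K'), sq_nonneg (w - K')]
    simp only
    linarith

end

end Pool.Agent.N666.TM
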