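import Pool.Agent.N666.TM.LawF
import Pool.Agent.N534.PS.Main

set_option autoImplicit false
set_option linter.unusedSectionVars false

/-! # Euler products given by power sums, along thin sequences -/

namespace Pool.Agent.N666.TM

open Finset Filter Topology MeasureTheory
open Pool.Agent.Y722.HS (EM red)
open Pool.Agent.N534.PS (Pow lamT rect)
open Pool.Agent.N666.VE (primes)

section
variable {ι : Type} [Fintype ι] [DecidableEq ι] [Nonempty ι]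
variable {D : ℝ} {w p0 : ℕ} {T : ∀ p : ℕ, ℕ → (ι → ZMod p) → ℝ} {Bad : ∀ p : ℕ, (ι → ZMod p) → Prop}

/-- bounded on the average in the region `R` -/
def BoundedOn (L : ℕ → ℂ → ℂ) (S : Finset ℕ) (R : Set ℂ) (C : ℝ) : Prop :=
  (∀ S' ⊆ S, ∀ u : ℕ → ℂ, (∀ n ∈ S', u n ∈ R) → ∑ n ∈ S', ‖L n (u n)‖ ^ 2 ≤ C * S.card) ∧
  (∀ δ : ℝ, 0 < δ → ∃ X ⊆ S, (X.card : ℝ) ≤ δ * S.card ∧
    ∀ n ∈ S \ X, ∀ u ∈ R, ‖L n u‖ ≤ Real.sqrt (C / δ))

theorem BoundedOn.mono {L : ℕ → ℂ → ℂ} {S : Finset ℕ} {R : Set ℂ} {C C' : ℝ} (hC : C ≤ C')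
    (h : BoundedOn L S R C) : BoundedOn L S R C' := by
  refine ⟨fun S' hS' u hu => (h.1 S' hS' u hu).trans ?_, fun δ hδ => ?_⟩
  · gcongr
  · obtain ⟨X, hX, hX1, hX2⟩ := h.2 δ hδ
    refine ⟨X, hX, hX1, fun n hn s hs => (hX2 n hn s hs).trans ?_⟩
    apply Real.sqrt_le_sqrt
    gcongr

theorem bounded_of {L : ℕ → ℂ → ℂ} {S : Finset ℕ} {R : Set ℂ} {C : ℝ} (hC : 0 < C) (M : ℕ → ℝ)
    (hM0 : ∀ n, 0 ≤ M n) (hM1 : ∑ n ∈ S, M n ≤ C * S.card) (hM2 : ∀ n, ∀ u ∈ R, ‖L n u‖ ^ 2 ≤ M n) :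
    BoundedOn L S R C := by
  refine ⟨fun S' hS' u hu => ?_, fun δ hδ => ?_⟩
  · calc _ ≤ ∑ n ∈ S', M n := Finset.sum_le_sum fun n hn => hM2 n (u n) (hu n hn)
      _ ≤ ∑ n ∈ S, M n := Finset.sum_le_sum_of_subset_of_nonneg hS' fun n _ _ => hM0 n
      _ ≤ _ := hM1
  · refine ⟨S.filter (fun n => C / δ < M n), Finset.filter_subset _ _, ?_, ?_⟩
    · have h1 : ((S.filter (fun n => C / δ < M n)).card : ℝ) * (C / δ) ≤
          ∑ n ∈ S.filter (fun n => C / δ < M n), M n := by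
        rw [← nsmul_eq_mul]
        exact Finset.card_nsmul_le_sum _ _ _ fun c hc => (Finset.mem_filter.mp hc).2.le
      have h2 : ∑ n ∈ S.filter (fun n => C / δ < M n), M n ≤ ∑ n ∈ S, M n :=
        Finset.sum_le_sum_of_subset_of_nonneg (Finset.filter_subset _ _) fun n _ _ => hM0 n
      have h3 := (h1.trans h2).trans hM1
      rw [mul_div_assoc', div_le_iff₀ hδ] at h3
      have h4 : C * ((S.filter (fun n => C / δ < M n)).card : ℝ) ≤ C * (δ * S.card) := by linarith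
      exact le_of_mul_le_mul_left h4 hC
    · intro n hn u hu
      rw [Finset.mem_sdiff, Finset.mem_filter, not_and, not_lt] at hn
      exact Real.le_sqrt_of_sq_le ((hM2 n u hu).trans (hn.2 hn.1))

theorem pow_avg (h : Pow D w p0 T Bad) {S : ℕ → Finset ℕ} {x : ℕ → ι → ℤ} {ρ : ℝ} (hρ : 0 < ρ)
    (hS : WellSeq S x ρ) : ∃ C : ℝ, 0 < C ∧ ∃ N₀ : ℕ, ∀ N : ℕ, N₀ ≤ N → ∀ t : ℝ, 0 ≤ t →
      BoundedOn (fun n u => ∑' p : Nat.Primes, lamT w p0 T Bad (x n) p u) (S N) (rect N t)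
        (C * (1 + t)) := by
  obtain ⟨C, hC, N₀, h1⟩ := thin_majorant h.fam (β := 2 * D) (by linarith [h.D1]) hρ hS
  refine ⟨C, hC, N₀, fun N hN t ht => ?_⟩
  obtain ⟨M, hM0, hM1, hM2⟩ := h1 N hN t ht
  exact bounded_of (by positivity) (fun n => M (x n)) (fun n => hM0 _) hM1
    (fun n u hu => hM2 (x n) _ (h.loc (x n)) u hu.1 hu.2.1 hu.2.2)

/-- integers and primes at the same time -/
theorem pow_avg_two (h : Pow D w p0 T Bad) {F : ι → Finset ℝ} {a : ι → ℝ → ℝ} {c : ι → ℝ}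
    (hF : ∀ i, c i ∈ F i ∧ (∀ t ∈ F i, t ≤ c i) ∧ 0 < c i ∧ (∀ m : ℕ, c i ≠ m) ∧ 0 < a i (c i))
    (hc : Function.Injective c) : ∃ C : ℝ, 0 < C ∧ ∃ N₀ : ℕ, ∀ N : ℕ, N₀ ≤ N → ∀ t : ℝ, 0 ≤ t →
      BoundedOn (fun n u => ∑' p : Nat.Primes, lamT w p0 T Bad (fl F a n) p u) (Ioc N (2 * N))
        (rect N t) (C * (1 + t)) ∧
      BoundedOn (fun n u => ∑' p : Nat.Primes, lamT w p0 T Bad (fl F a n) p u) (primes N)
        (rect N t) (C * (1 + t)) := by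
  obtain ⟨⟨κ₁, hκ₁, h₁⟩, ⟨κ₂, hκ₂, h₂⟩⟩ := fl_well hF hc
  obtain ⟨C₁, hC₁, N₁, g₁⟩ := pow_avg h hκ₁ h₁
  obtain ⟨C₂, hC₂, N₂, g₂⟩ := pow_avg h hκ₂ h₂
  refine ⟨max C₁ C₂, lt_max_of_lt_left hC₁, max N₁ N₂, fun N hN t ht => ⟨?_, ?_⟩⟩
  · refine (g₁ N ((le_max_left _ _).trans hN) t ht).mono ?_
    gcongr
    exact le_max_left _ _
  · refine (g₂ N ((le_max_right _ _).trans hN) t ht).mono ?_
    gcongr
    exact le_max_right _ _

end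

end Pool.Agent.N666.TM
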