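import Pool.Agent.N666.TM.Pow
import Pool.Agent.N534.HC.State

set_option autoImplicit false
set_option linter.unusedSectionVars false

/-! # Euler products over number fields given by local traces, along thin sequences -/

namespace Pool.Agent.N666.TM.St

open NumberField IsDedekindDomain MeasureTheory Filter Topology
open Pool.Agent.N534.PS (Pow lamT rect)
open Pool.Agent.N534.HC.St
open Pool.Agent.N534.EC.State (Residues uniform lift primesUpTo)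
open Pool.Agent.N666.TM (BoundedOn fl WellSeq)
open Pool.Agent.N666.VE (primes)

section
variable {K : Type} [Field K] [NumberField K]
variable {ι : Type} [Fintype ι] [DecidableEq ι] [Nonempty ι]
variable {w p0 : ℕ} {T : ∀ p : ℕ, ℕ → (ι → ZMod p) → ℝ} {Bad : ∀ p : ℕ, (ι → ZMod p) → Prop}
  {t : (ι → ℤ) → HeightOneSpectrum (𝓞 K) → ℕ → ℝ} {G : (ι → ℤ) → HeightOneSpectrum (𝓞 K) → Prop} {D : ℝ}

/-- the supremum near the edge -/
theorem avgT (h : Cmp w p0 T Bad t G) (hp : Pow D w p0 T Bad) {F : ι → Finset ℝ} {a : ι → ℝ → ℝ}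
    {c : ι → ℝ}
    (hF : ∀ i, c i ∈ F i ∧ (∀ t ∈ F i, t ≤ c i) ∧ 0 < c i ∧ (∀ m : ℕ, c i ≠ m) ∧ 0 < a i (c i))
    (hc : Function.Injective c) : ∃ C : ℝ, 0 < C ∧ ∃ N₀ : ℕ, ∀ N : ℕ, N₀ ≤ N → ∀ τ : ℝ, 0 ≤ τ →
      BoundedOn (fun n s => logL (t (fl F a n)) (G (fl F a n)) s) (Finset.Ioc N (2 * N))
        (rectangle w N τ) (C * (1 + τ)) ∧
      BoundedOn (fun n s => logL (t (fl F a n)) (G (fl F a n)) s) (primes N)
        (rectangle w N τ) (C * (1 + τ)) := by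
  have hlog := fun (c : ι → ℤ) (s : ℂ) => logL_eq h c s
  obtain ⟨C, hC, N₀, hav⟩ := Pool.Agent.N666.TM.pow_avg_two hp hF hc
  have hrect : ∀ (H : ℕ) (τ : ℝ) (s : ℂ), s ∈ rectangle w H τ → s - (1 + (w : ℂ) / 2) ∈ rect H τ := by
    intro H τ s hs
    obtain ⟨h1, h2, h3⟩ := hs
    refine ⟨?_, ?_, ?_⟩
    · rw [Pool.Agent.N534.AS.State.re_sub]; linarith
    · rw [Pool.Agent.N534.AS.State.re_sub]; linarith
    · rw [Pool.Agent.N534.AS.State.im_sub]; exact h3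
  have key : ∀ (S : Finset ℕ) (N : ℕ) (τ B : ℝ),
      BoundedOn (fun n u => ∑' p : Nat.Primes, lamT w p0 T Bad (fl F a n) p u) S (rect N τ) B →
      BoundedOn (fun n s => logL (t (fl F a n)) (G (fl F a n)) s) S (rectangle w N τ) B := by
    rintro S N τ B ⟨h1, h2⟩
    refine ⟨fun S' hS' s hs => ?_, fun δ hδ => ?_⟩
    · have h3 := h1 S' hS' (fun n => s n - (1 + (w : ℂ) / 2)) (fun n hn => hrect N τ _ (hs n hn))
      simp only [← hlog] at h3
      exact h3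
    · obtain ⟨X, hX1, hX2, hX3⟩ := h2 δ hδ
      refine ⟨X, hX1, hX2, fun n hn s hs => ?_⟩
      have h3 := hX3 n hn _ (hrect N τ s hs)
      simp only [← hlog] at h3
      exact h3
  exact ⟨C, hC, N₀, fun N hN τ hτ => ⟨key _ _ _ _ (hav N hN τ hτ).1, key _ _ _ _ (hav N hN τ hτ).2⟩⟩

/-- the limit law -/
theorem lawS (h : Cmp w p0 T Bad t G) (hp : Pow D w p0 T Bad)
    {κ : Type} [Fintype κ] (s : κ → ℂ) (hs : ∀ k, 1 + (w : ℝ) / 2 ≤ (s k).re) :
    ∃ Z : κ → Residues ι → ℂ, (∀ k, Measurable (Z k)) ∧ (∀ k, Integrable (Z k) (uniform ι)) ∧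
      (∀ k, Tendsto (fun z : ℕ => ∫ x, ‖randomLog t G z (s k) x - Z k x‖ ∂(uniform ι)) atTop (𝓝 0)) ∧
      ∀ (S : ℕ → Finset ℕ) (x : ℕ → ι → ℤ) (ρ : ℝ), 0 < ρ → WellSeq S x ρ →
      ∀ σ : ℕ → κ → ℂ, (∀ k, Tendsto (fun H => σ H k) atTop (𝓝 (s k))) →
        (∀ k, Tendsto (fun H : ℕ => ((σ H k).re - (1 + (w : ℝ) / 2)) * Real.log H) atTop atTop) →
        (∀ F : (κ → ℂ) → ℝ, Continuous F → (∃ C : ℝ, ∀ y, |F y| ≤ C) →
          Tendsto (fun H : ℕ => (∑ n ∈ S H, F (fun k => LSeries (t (x n)) (G (x n)) (σ H k))) /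
            (S H).card) atTop (𝓝 (∫ x, F (fun k => Complex.exp (Z k x)) ∂(uniform ι)))) ∧
        (∀ E : Set (κ → ℂ), MeasurableSet E →
          uniform ι {x | (fun k => Complex.exp (Z k x)) ∈ frontier E} = 0 →
          Tendsto (fun H : ℕ => (open Classical in ((S H).filter
            (fun n => (fun k => LSeries (t (x n)) (G (x n)) (σ H k)) ∈ E)).card : ℝ) /
              (S H).card) atTop
            (𝓝 ((uniform ι).real {x | (fun k => Complex.exp (Z k x)) ∈ E}))) := by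
  set e : ℂ := 1 + (w : ℂ) / 2 with he
  have hre : ∀ z : ℂ, (z - e).re = z.re - (1 + (w : ℝ) / 2) := fun z => Pool.Agent.N534.AS.State.re_sub z _
  obtain ⟨Z, h1, h2, h3, h4⟩ := Pool.Agent.N666.TM.lawT hp.sys (fun k => s k - e)
    (fun k => by rw [hre]; linarith [hs k])
  refine ⟨Z, h1, h2, fun k => ?_, fun S x ρ hρ hS σ hσ hσl => ?_⟩
  · have h5 := h3 k
    simp only [he, ← randomLog_eq h] at h5
    exact h5
  · have hlogN : Tendsto (fun H : ℕ => Real.log H) atTop atTop :=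
      Real.tendsto_log_atTop.comp tendsto_natCast_atTop_atTop
    have hpos : ∀ k, ∀ᶠ H : ℕ in atTop, 1 + (w : ℝ) / 2 < (σ H k).re := by
      intro k
      filter_upwards [(hσl k).eventually_gt_atTop 0, hlogN.eventually_gt_atTop 0] with H h1 h2
      have := pos_of_mul_pos_left h1 h2.le
      linarith
    exact h4 S x ρ hρ hS (fun H k => σ H k - e) (fun k => (hσ k).sub_const _) (fun k => by
      simpa only [hre] using hσl k)
      (fun H n k => LSeries (t (x n)) (G (x n)) (σ H k)) (by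
      filter_upwards [eventually_all.mpr hpos] with H hH n _ k
      rw [LSeries_eq h hp (x n) _ (hH k), logL_eq h])

/-- joint distributions -/
def ConvergesTo {ι κ : Type} [Fintype ι] [DecidableEq ι] [Fintype κ] (S : ℕ → Finset ℕ) (X : ℕ → ℕ → κ → ℂ)
    (Z : κ → Residues ι → ℂ) : Prop :=
  (∀ G : (κ → ℂ) → ℝ, Continuous G → (∃ C : ℝ, ∀ y, |G y| ≤ C) →
    Tendsto (fun N : ℕ => (∑ n ∈ S N, G (X N n)) / (S N).card) atTop
      (𝓝 (∫ x, G (fun k => Complex.exp (Z k x)) ∂(uniform ι)))) ∧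
  (∀ E : Set (κ → ℂ), MeasurableSet E → uniform ι {x | (fun k => Complex.exp (Z k x)) ∈ frontier E} = 0 →
    Tendsto (fun N : ℕ => (open Classical in ((S N).filter (fun n => X N n ∈ E)).card : ℝ) / (S N).card) atTop
      (𝓝 ((uniform ι).real {x | (fun k => Complex.exp (Z k x)) ∈ E})))

/-- everything for generalised polynomials -/
theorem thin_all (h : Cmp w p0 T Bad t G) (hp : Pow D w p0 T Bad) {F : ι → Finset ℝ} {a : ι → ℝ → ℝ}
    {c : ι → ℝ}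
    (hF : ∀ i, c i ∈ F i ∧ (∀ t ∈ F i, t ≤ c i) ∧ 0 < c i ∧ (∀ m : ℕ, c i ≠ m) ∧ 0 < a i (c i))
    (hc : Function.Injective c) :
    (∀ (v : ι → ℤ) (s : ℂ), 1 + (w : ℝ) / 2 < s.re → LSeries (t v) (G v) s = Complex.exp (logL (t v) (G v) s)) ∧
    (∃ C : ℝ, 0 < C ∧ ∃ N₀ : ℕ, ∀ N : ℕ, N₀ ≤ N → ∀ τ : ℝ, 0 ≤ τ →
      BoundedOn (fun n s => logL (t (fl F a n)) (G (fl F a n)) s) (Finset.Ioc N (2 * N))
        (rectangle w N τ) (C * (1 + τ)) ∧
      BoundedOn (fun n s => logL (t (fl F a n)) (G (fl F a n)) s) (primes N)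
        (rectangle w N τ) (C * (1 + τ))) ∧
    ∀ {κ : Type} [Fintype κ] (s : κ → ℂ), (∀ k, 1 + (w : ℝ) / 2 ≤ (s k).re) →
      ∃ Z : κ → Residues ι → ℂ, (∀ k, Measurable (Z k)) ∧ (∀ k, Integrable (Z k) (uniform ι)) ∧
        (∀ k, Tendsto (fun z : ℕ => ∫ x, ‖randomLog t G z (s k) x - Z k x‖ ∂(uniform ι)) atTop (𝓝 0)) ∧
        ∀ σ : ℕ → κ → ℂ, (∀ k, Tendsto (fun N => σ N k) atTop (𝓝 (s k))) →
          (∀ k, Tendsto (fun N : ℕ => ((σ N k).re - (1 + (w : ℝ) / 2)) * Real.log N) atTop atTop) →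
          ConvergesTo (fun N => Finset.Ioc N (2 * N))
            (fun N n k => LSeries (t (fl F a n)) (G (fl F a n)) (σ N k)) Z ∧
          ConvergesTo (fun N => primes N)
            (fun N n k => LSeries (t (fl F a n)) (G (fl F a n)) (σ N k)) Z := by
  refine ⟨fun v s hs => LSeries_eq h hp v s hs, avgT h hp hF hc, fun s hs => ?_⟩
  obtain ⟨⟨κ₁, hκ₁, g₁⟩, ⟨κ₂, hκ₂, g₂⟩⟩ := Pool.Agent.N666.TM.fl_well hF hc
  obtain ⟨Z, h1, h2, h3, h4⟩ := lawS h hp s hs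
  exact ⟨Z, h1, h2, h3, fun σ hσ hσl => ⟨h4 _ _ κ₁ hκ₁ g₁ σ hσ hσl, h4 _ _ κ₂ hκ₂ g₂ σ hσ hσl⟩⟩

end

end Pool.Agent.N666.TM.St
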